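import Pool.Agent.Run7.h384.RF.Defs
import Pool.Agent.Run7.h902.CyVan

/-!
# Motivic homology with compact support over a finite field and rational function fields: definitions
-/

set_option autoImplicit false

open CategoryTheory AlgebraicGeometry Polynomial Pool.Agent.Y116.UV Pool.Agent.Run7.h902
open Pool.Agent.Run7.h384.RF (Ext Motivic Theory)

namespace Pool.Agent.Run7.h406.PR

/-! ### groups -/

/-- The rank of the abelian group `M` is at most `N`: any `N + 1` elements are linearly dependent. -/
def RankLE (M : Type) [AddCommGroup M] (N : ℕ) : Prop :=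
  ∀ x : Fin (N + 1) → M, ∃ c : Fin (N + 1) → ℤ, c ≠ 0 ∧ ∑ i, c i • x i = 0

/-- There are homomorphisms `L → M → N` whose sequence is exact at `M`. -/
def ExactSeq (L M N : Type) [AddCommGroup L] [AddCommGroup M] [AddCommGroup N] : Prop :=
  ∃ (f : L →+ M) (g : M →+ N), Function.Exact f g

/-- There is an injective homomorphism `L → M`. -/
def Embeds (L M : Type) [AddCommGroup L] [AddCommGroup M] : Prop :=
  ∃ f : L →+ M, Function.Injective f

/-- `M` is the union of the images of the groups `G r`. -/
def Exhausts {G : ℕ → Type} [∀ r, AddCommGroup (G r)] {M : Type} [AddCommGroup M]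
    (f : ∀ r, G r →+ M) : Prop :=
  ∀ y : M, ∃ (r : ℕ) (x : G r), f r x = y

/-- The map `σ` maps the image of `G r` to the image of `G r'`. -/
def Moves {G : ℕ → Type} [∀ r, AddCommGroup (G r)] {M : Type} [AddCommGroup M]
    (f : ∀ r, G r →+ M) (σ : M → M) (r r' : ℕ) : Prop :=
  ∀ x : G r, ∃ x' : G r', f r' x' = σ (f r x)

/-! ### fields -/

section fields

variable {k : Type} [Field k] (A : Motivic k ℚ)

/-- `CH^n(F, m) ⊗ ℚ = H^(2 n - m)(F, ℚ(n))` for an extension field `F` of `k`. -/
def coh (n m : ℕ) (F : Ext k) : Type := A.H (2 * (n : ℤ) - m) n F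

instance (n m : ℕ) (F : Ext k) : AddCommGroup (coh A n m F) := A.group _ _ _

/-- The action of the translation `t ↦ t + a` on `CH^n(K(t), m) ⊗ ℚ`. -/
noncomputable def cohShift (n m : ℕ) (K : Ext k) (a : K) (x : coh A n m K.rat) : coh A n m K.rat :=
  A.map (2 * (n : ℤ) - m) n (K.shiftRat a) x

/-- `H^i(F, ℚ(n)) = 0` for all finitely generated extensions `F` of `k` of transcendence degree at
most `d`. -/
def FieldsVanish (i : ℤ) (n d : ℕ) : Prop :=
  ∀ F : Ext k, Algebra.EssFiniteType k F → Algebra.trdeg k F ≤ d → Subsingleton (A.H i n F)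

/-- The translation `t ↦ t + a` of `K(t)` acts trivially on `H^i(K(t), ℚ(n))`. -/
def Fixes (i : ℤ) (n : ℕ) (K : Ext k) (a : K) : Prop :=
  ∀ x : A.H i n K.rat, A.map i n (K.shiftRat a) x = x

/-- For every `x` in `H^i(K(t), ℚ(n))` infinitely many translates of `x` lie in the sum of
`H^i(K, ℚ(n))` and a finite-dimensional space. -/
def FewTranslates (i : ℤ) (n : ℕ) (K : Ext k) : Prop :=
  ∀ x : A.H i n K.rat, ∃ (T : Set K) (N : Submodule ℚ (A.H i n K.rat)), T.Infinite ∧ N.FG ∧
    ∀ a ∈ T, A.map i n (K.shiftRat a) x ∈ N ⊔ LinearMap.range (A.map i n K.toRat)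

/-- `IsPoly k S u d x`: the element `x` of `K_d = k(t_1, …, t_d)` is a polynomial of degree at most `u` in
each of the variables `t_1, …, t_d` with coefficients in `S`. -/
inductive IsPoly (k : Type) [Field k] (S : Set k) (u : ℕ) : (d : ℕ) → Ext.tower k d → Prop
  | zero (a : k) (h : a ∈ S) : IsPoly k S u 0 a
  | succ (d : ℕ) (p : (Ext.tower k d)[X]) (hp : p.natDegree ≤ u)
      (h : ∀ j ≤ u, IsPoly k S u d (p.coeff j)) :
      IsPoly k S u (d + 1) (algebraMap (Ext.tower k d)[X] (RatFunc (Ext.tower k d)) p)

end fields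

/-! ### schemes -/

section schemes

variable {k : Type} [Field k]

/-- A smooth affine variety `Spec A` of dimension `e` over `k` with function field `F`. -/
structure Model (F : Ext k) (e : ℕ) where
  A : Type
  [ring : CommRing A]
  [algebra : Algebra k A]
  [algebraF : Algebra A F]
  finiteType : Algebra.FiniteType k A
  smooth : Algebra.Smooth k A
  tower : IsScalarTower k A F
  fraction : IsFractionRing A F
  dim : ringKrullDim A = e

attribute [instance] Model.ring Model.algebra Model.algebraF

/-- The scheme `Spec A` over `k`. -/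
noncomputable def Model.scheme {F : Ext k} {e : ℕ} (M : Model F e) : Sch k := aff k M.A

/-- The product of all nonzero polynomials of degree at most `r` in `N` variables over the finite
field `k`. -/
noncomputable def allPoly (k : Type) [Field k] (N r : ℕ) : MvPolynomial (Fin N) k :=
  ∏ᶠ f ∈ {f : MvPolynomial (Fin N) k | f ≠ 0 ∧ f.totalDegree ≤ r}, f

/-- The complement in the affine space `𝔸^N` of the hypersurface `f = 0`. -/
noncomputable def complS {N : ℕ} (f : MvPolynomial (Fin N) k) : Sch k :=
  aff k (Localization.Away f)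

/-- The complement `U_r` in the affine space `𝔸^N` of all hypersurfaces of degree at most `r`. -/
noncomputable def bigOpen (k : Type) [Field k] (N r : ℕ) : Sch k := complS (allPoly k N r)

variable (C : Cw.Chow k)

/-- `CH^n(X, m) ⊗ ℚ` for a scheme `X` of dimension `N`. -/
def codim (n m N : ℕ) (X : Sch k) : Type := C.G ((N : ℤ) - n) m X

instance (n m N : ℕ) (X : Sch k) : AddCommGroup (codim C n m N X) := C.grp _ _ _

/-- The element `x` of `CH^n(X, m)` comes from a closed subscheme of `X` of dimension less than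
`e = dim X`. -/
def FromSmaller (n m e : ℕ) (X : Sch k) (x : codim C n m e X) : Prop :=
  ∃ (Z U : Sch k) (i : Z ⟶ X) (j : U ⟶ X), IsTriple i j ∧ FT True Z ∧
    topologicalKrullDim Z.left < e ∧ ∃ f : codim C n m e Z →+ codim C n m e X, x ∈ Set.range f

/-- Existence of alterations (de Jong) and the transfer for rational higher Chow groups: for a smooth
domain `A` a nonempty open subscheme `U` of `Spec A` has a finite flat covering `U'` which is an open
subscheme of a smooth projective variety `Y` of the same dimension, and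
`CH_b(U, m) ⊗ ℚ → CH_b(U', m) ⊗ ℚ` is injective; the complements have smaller dimension. -/
def Alterations : Prop :=
  ∀ (A : Type) [CommRing A] [Algebra k A] [Algebra.FiniteType k A], IsDomain A →
    Algebra.Smooth k A → ∃ (Z U Z' U' Y : Sch k) (i : Z ⟶ aff k A) (j : U ⟶ aff k A)
      (i' : Z' ⟶ Y) (j' : U' ⟶ Y), IsTriple i j ∧ IsTriple i' j' ∧
      (FT True Z ∧ FT True Z' ∧ FT True U') ∧ Cw.SmoothProjective Y ∧
      (topologicalKrullDim Z.left < ringKrullDim A ∧
        topologicalKrullDim Z'.left < ringKrullDim A ∧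
        topologicalKrullDim Y.left = ringKrullDim A) ∧
      ∀ (b : ℤ) (m : ℕ), Embeds (C.G b m U) (C.G b m U')

/-- The restriction of the classes on smooth affine varieties to the generic point:

* `generic`: for a smooth affine variety `M` of dimension `e` with function field `F` there is the
  restriction `CH^n(M, m) → H^(2 n - m)(F, ℚ(n))` to the generic point;
* `support`: an element which restricts to `0` comes from a closed subscheme of smaller dimension;
* `exhaust`: for a finitely generated `F` every element of `H^(2 n - m)(F, ℚ(n))` is the restriction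
  of an element of `CH^n(M, m)` for some smooth affine variety `M` with function field `F`. -/
structure Restriction (A : Motivic k ℚ) where
  generic : ∀ (n m e : ℕ) (F : Ext k) (M : Model F e), codim C n m e M.scheme →+ coh A n m F
  support : ∀ (n m e : ℕ) (F : Ext k) (M : Model F e) (x : codim C n m e M.scheme),
    generic n m e F M x = 0 → FromSmaller C n m e M.scheme x
  exhaust : ∀ (n m : ℕ) (F : Ext k) (y : coh A n m F), Algebra.EssFiniteType k F →
    ∃ (e : ℕ) (M : Model F e) (x : codim C n m e M.scheme), generic n m e F M x = y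

/-- The classes on the open subschemes `U_r` of the affine space:

* `opens`, `exhaust`: `H^(2 n - m)(k(t_1, …, t_N), ℚ(n))` is the union of the images of the groups
  `CH^n(U_r, m) ⊗ ℚ`, where `U_r` is the complement in `𝔸^N` of all hypersurfaces of degree at
  most `r`;
* `shift`: if `a` is a polynomial of degree at most `u` in each of `t_1, …, t_d`, `u ≥ 1`, the
  translation `t_(d+1) ↦ t_(d+1) + a` maps hypersurfaces of degree at most `r` in `𝔸^(d+1)` to
  hypersurfaces of degree at most `r d u`, so it maps the image of `CH(U_r)` to the image of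
  `CH(U_(r d u))`. -/
structure Opens (A : Motivic k ℚ) where
  opens : ∀ n m N r : ℕ, codim C n m N (bigOpen k N r) →+ coh A n m (Ext.tower k N)
  exhaust : ∀ n m N : ℕ, Exhausts (opens n m N)
  shift : ∀ (n m d u r : ℕ) (a : Ext.tower k d), 1 ≤ d → 1 ≤ u → IsPoly k Set.univ u d a →
    Moves (opens n m (d + 1)) (cohShift A n m (Ext.tower k d) a) r (r * (d * u))

end schemes

/-- Rational motivic homology with compact support `H_i^c(X, ℚ(b)) = CH_b(X, i - 2 b) ⊗ ℚ` of the
schemes of finite type over `k` (`Cw.Chow`: exact localization sequences, vanishing for `dim X < b`),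
with further known properties:

* `negative`: there are no cycles of negative dimension, so `CH_b(X, m) = 0` for `b + m < 0`;
* `boundary`: `CH_b(X, m + 1) → CH_b(U, m + 1) → CH_b(Z, m)` is exact for a closed subscheme `Z` of
  `X` and its complement `U`;
* `affineSpace`: `CH_b(𝔸^N, m) = CH_(b-N)(k, m)` is torsion for `m > 0` (homotopy invariance, Quillen);
* `alteration`: existence of alterations. -/
structure BorelMoore (k : Type) [Field k] where
  C : Cw.Chow k
  negative : ∀ (b : ℤ) (m : ℕ) (X : Sch k), FT True X → b + m < 0 → Subsingleton (C.G b m X)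
  boundary : ∀ (b : ℤ) (m : ℕ) (Z X U : Sch k) (i : Z ⟶ X) (j : U ⟶ X), FT True X →
    IsTriple i j → ExactSeq (C.G b (m + 1) X) (C.G b (m + 1) U) (C.G b m Z)
  affineSpace : ∀ (N : ℕ) (b : ℤ) (m : ℕ), 0 < m →
    Subsingleton (C.G b m (aff k (MvPolynomial (Fin N) k)))
  alteration : Alterations C

/-- Rational motivic homology with compact support of the schemes of finite type over the finite
field `k` and rational motivic cohomology `H^i(F, ℚ(n))` of the extension fields `F` of `k`
(`Motivic`: the split exact sequence for `K(t)`, compatible with translations), with their known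
properties and relation; `quillen`: `H^i(k, ℚ(n)) = 0` for `n ≥ 1`; `high`: `H^i(F, ℚ(n)) = 0` for
`i > n`. -/
structure Motives (k : Type) [Field k] extends BorelMoore k where
  fields : Motivic k ℚ
  quillen : ∀ (i : ℤ) (n : ℕ), 1 ≤ n → Subsingleton (fields.H i n (Ext.base k))
  high : ∀ (i : ℤ) (n : ℕ) (F : Ext k), (n : ℤ) < i → Subsingleton (fields.H i n F)
  restriction : Restriction C fields
  opens : Opens C fields

/-! ### the conditions -/

section conditions

variable {k : Type} [Field k] (B : BorelMoore k) (E : Motives k)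

/-- The statement `P_b` for the smooth projective varieties `Y` of dimension at most `d`:
`H_i^c(Y, ℚ(b)) = CH_b(Y, i - 2 b) ⊗ ℚ` vanishes for `i ≠ 2 b`. -/
def BorelMoore.Parshin (b : ℤ) (d : ℕ) : Prop :=
  ∀ Y : Sch k, Cw.SmoothProjective Y → topologicalKrullDim Y.left ≤ d → ∀ m : ℕ, 0 < m →
    Subsingleton (B.C.G b m Y)

/-- `H_i^c(X, ℚ(b)) = 0` for all `i` and all schemes `X` of finite type of dimension at most `d`. -/
def BorelMoore.AllVanish (b : ℤ) (d : ℕ) : Prop :=
  ∀ X : Sch k, FT True X → topologicalKrullDim X.left ≤ d → ∀ m : ℕ, Subsingleton (B.C.G b m X)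

/-- `H_i^c(X, ℚ(b)) = CH_b(X, i - 2 b) ⊗ ℚ` vanishes for `i > e + b` and all schemes `X` of finite type of
dimension at most `e`, for all `e ≤ d`. -/
def BorelMoore.Above (b : ℤ) (d : ℕ) : Prop :=
  ∀ e ≤ d, ∀ X : Sch k, FT True X → topologicalKrullDim X.left ≤ e → ∀ m : ℕ, (e : ℤ) - b < m →
    Subsingleton (B.C.G b m X)

/-- Let `q` be the number of elements of `k` and `U_r` the complement in `𝔸^(d+1)` of all hypersurfaces
of degree at most `r`. For all `C` and `s` there is `r = s d u`, `u ≥ 1`, such that
`C · rank CH_b(U_r, m) < q ^ ((u + 1) ^ d)`. So the ranks do not grow like `q ^ (c r ^ d)`, `c > 0`. -/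
def BorelMoore.SlowGrowth (b : ℤ) (d m : ℕ) : Prop :=
  ∀ C s : ℕ, ∃ u N : ℕ, 1 ≤ u ∧ C * N < Nat.card k ^ (u + 1) ^ d ∧
    RankLE (B.C.G b m (bigOpen k (d + 1) (s * (d * u)))) N

/-- `CH_b(𝔸^(d+1) - V(f), m) ⊗ ℚ = 0` for all `f ≠ 0` and all `m ∈ S`. -/
def BorelMoore.Complements (b : ℤ) (d : ℕ) (S : Set ℕ) : Prop :=
  ∀ f : MvPolynomial (Fin (d + 1)) k, f ≠ 0 → ∀ m ∈ S, Subsingleton (B.C.G b m (complS f))

/-- The ranks of `CH_b(U_r, m)` grow slowly for all `m ∈ S`, where `U_r` is the complement in `𝔸^(d+1)` of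
all hypersurfaces of degree at most `r`. -/
def BorelMoore.Slow (b : ℤ) (d : ℕ) (S : Set ℕ) : Prop :=
  ∀ m ∈ S, B.SlowGrowth b d m

/-- `H^i(F, ℚ(n)) = 0` for `i ∈ S` and all finitely generated extension fields `F` of `k` of
transcendence degree at most `d`. -/
def Motives.FieldsVanish (S : Set ℤ) (n d : ℕ) : Prop :=
  ∀ i ∈ S, PR.FieldsVanish E.fields i n d

/-- `H^i(k(t_1, …, t_N), ℚ(n)) = 0` for `i ∈ S`. -/
def Motives.Zero (S : Set ℤ) (n N : ℕ) : Prop :=
  ∀ i ∈ S, Subsingleton (E.fields.H i n (Ext.tower k N))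

/-- `H^i(k(t_1, …, t_N), ℚ(n))` is finite-dimensional for `i ∈ S`. -/
def Motives.FinDim (S : Set ℤ) (n N : ℕ) : Prop :=
  ∀ i ∈ S, Module.Finite ℚ (E.fields.H i n (Ext.tower k N))

/-- The automorphism `t_(d+1) ↦ t_(d+1) + 1` acts trivially on `H^i(k(t_1, …, t_(d+1)), ℚ(n))` for
`i ∈ S`. -/
def Motives.Fixed (S : Set ℤ) (n d : ℕ) : Prop :=
  ∀ i ∈ S, Fixes E.fields i n (Ext.tower k d) 1

/-- For `i ∈ S` and every `x` in `H^i(k(t_1, …, t_(d+1)), ℚ(n))` infinitely many translates of `x` by
elements of `k(t_1, …, t_d)` lie in a finite-dimensional space modulo `H^i(k(t_1, …, t_d), ℚ(n))`. -/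
def Motives.Few (S : Set ℤ) (n d : ℕ) : Prop :=
  ∀ i ∈ S, FewTranslates E.fields i n (Ext.tower k d)

end conditions

end Pool.Agent.Run7.h406.PR
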