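import Pool.Agent.Run7.h384.RF.Final

/-!
# Vanishing of the cohomology of fields over a finite field and one translation
-/

set_option autoImplicit false

open Polynomial Pool.Agent.Run7.h384.RF

namespace Pool.Agent.Run7.h406.PR

/-- Every residue field of a point of the affine line over an infinite field is the residue field of a
point which is moved by a given translation. -/
lemma exists_moved {K : Type} [Field K] [Infinite K] (P : Pt K) {a : K} (ha : a ≠ 0) :
    ∃ Q : Pt K, Q.shift a ≠ Q ∧ Nonempty (AdjoinRoot P.1 ≃ₐ[K] AdjoinRoot Q.1) := by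
  let L := AdjoinRoot P.1
  let θ : L := AdjoinRoot.root P.1
  have hP0 : P.1 ≠ 0 := P.2.1.ne_zero
  have hfin : Module.Finite K L := P.2.1.finite_adjoinRoot
  have halg : Algebra.IsIntegral K L := inferInstance
  have hinj : Set.InjOn (fun c : K => θ - algebraMap K L (a / c)) {0}ᶜ := by
    intro c hc c' hc' h
    have hc0 : c ≠ 0 := hc
    have hc0' : c' ≠ 0 := hc'
    have h1 : algebraMap K L (a / c) = algebraMap K L (a / c') := by
      have h2 : θ - algebraMap K L (a / c) = θ - algebraMap K L (a / c') := h
      exact sub_right_injective h2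
    have h3 : a / c = a / c' := (algebraMap K L).injective h1
    field_simp at h3
    exact h3.symm
  have hB : ({0}ᶜ ∩ (fun c : K => θ - algebraMap K L (a / c)) ⁻¹' (P.1.rootSet L)).Finite := by
    refine Set.Finite.of_finite_image (f := fun c : K => θ - algebraMap K L (a / c)) ?_
      (hinj.mono Set.inter_subset_left)
    refine (P.1.rootSet_finite L).subset ?_
    rintro _ ⟨c, hc, rfl⟩
    exact hc.2
  obtain ⟨c, hc⟩ := ((hB.union (Set.finite_singleton (0 : K))).infinite_compl).nonempty
  have hc0 : c ≠ 0 := fun h => hc (Or.inr h)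
  have hcB : aeval (θ - algebraMap K L (a / c)) P.1 ≠ 0 := fun h =>
    hc (Or.inl ⟨hc0, (mem_rootSet.mpr ⟨hP0, h⟩)⟩)
  let θ' : L := algebraMap K L c * θ
  have hint : IsIntegral K θ' := Algebra.IsIntegral.isIntegral θ'
  refine ⟨⟨minpoly K θ', minpoly.monic hint, minpoly.irreducible hint⟩, ?_, ?_⟩
  · intro h
    have h1 : (minpoly K θ').comp (X + C a) = minpoly K θ' := congrArg Subtype.val h
    have h2 : aeval (θ' - algebraMap K L a) (minpoly K θ') = 0 := by
      rw [← h1, aeval_comp]
      have h3 : aeval (θ' - algebraMap K L a) (X + C a : K[X]) = θ' := by simp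
      rw [h3]
      exact minpoly.aeval K θ'
    have hcc : algebraMap K L c⁻¹ * algebraMap K L c = 1 := by
      rw [← map_mul, inv_mul_cancel₀ hc0, map_one]
    have h3 : aeval θ' (P.1.comp (C c⁻¹ * X)) = 0 := by
      rw [aeval_comp]
      have h4 : aeval θ' (C c⁻¹ * X : K[X]) = θ := by
        rw [map_mul, aeval_C, aeval_X, ← mul_assoc, hcc, one_mul]
      rw [h4]
      exact AdjoinRoot.eval₂_root P.1
    obtain ⟨S, hS⟩ := minpoly.dvd K θ' h3
    have h5 : aeval (θ' - algebraMap K L a) (P.1.comp (C c⁻¹ * X)) = 0 := by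
      rw [hS, map_mul, h2, zero_mul]
    rw [aeval_comp] at h5
    have h6 : aeval (θ' - algebraMap K L a) (C c⁻¹ * X : K[X]) = θ - algebraMap K L (a / c) := by
      rw [map_mul, aeval_C, aeval_X, mul_sub, ← mul_assoc, hcc, one_mul, ← map_mul, div_eq_inv_mul]
    rw [h6] at h5
    exact hcB h5
  · have htop : IntermediateField.adjoin K {θ'} = ⊤ := by
      rw [eq_top_iff]
      intro x _
      have hx : x ∈ Algebra.adjoin K ({θ} : Set L) := by
        rw [AdjoinRoot.adjoinRoot_eq_top]
        exact Algebra.mem_top
      have h1 : Algebra.adjoin K ({θ} : Set L) ≤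
          (IntermediateField.adjoin K {θ'}).toSubalgebra := by
        rw [Algebra.adjoin_le_iff, Set.singleton_subset_iff]
        have h2 : algebraMap K L c⁻¹ * θ' ∈ IntermediateField.adjoin K {θ'} :=
          mul_mem ((IntermediateField.adjoin K {θ'}).algebraMap_mem _)
            (IntermediateField.mem_adjoin_simple_self K θ')
        have h3 : algebraMap K L c⁻¹ * θ' = θ := by
          change algebraMap K L c⁻¹ * (algebraMap K L c * θ) = θ
          rw [← mul_assoc, ← map_mul, inv_mul_cancel₀ hc0, map_one, one_mul]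
        rw [h3] at h2
        exact h2
      exact h1 hx
    let e1 : AdjoinRoot (minpoly K θ') ≃ₐ[K] L :=
      (IntermediateField.adjoinRootEquivAdjoin K hint).trans
        ((IntermediateField.equivOfEq htop).trans IntermediateField.topEquiv)
    exact ⟨e1.symm⟩

variable {k : Type} [Field k] {R : Type} [CommRing R] (A : Motivic k R)

/-- the residue fields of the points which are moved by a translation with trivial action -/
lemma residue_of_moved (i : ℤ) (n : ℕ) (K : Ext k) (a : K) (h : A.Fixes (i + 1) (n + 1) K a)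
    (P : Pt K) (hP : P.shift a ≠ P) : Subsingleton (A.H i n (K.residue P)) := by
  classical
  refine subsingleton_of_forall_eq 0 fun y => ?_
  obtain ⟨x, hx⟩ := A.surjective i n K (DirectSum.of (fun P => A.H i n (K.residue P)) P y)
  have h1 := A.translation i n K a P x
  rw [h x, hx] at h1
  have h2 : (DirectSum.of (fun P => A.H i n (K.residue P)) P y) (P.shift a) = 0 :=
    DirectSum.of_eq_of_ne (β := fun P => A.H i n (K.residue P)) P (P.shift a) y hP
  have h3 : (DirectSum.of (fun P => A.H i n (K.residue P)) P y) P = y :=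
    DirectSum.of_eq_same (β := fun P => A.H i n (K.residue P)) P y
  have h4 : A.map i n (K.shiftResidue a P) y = 0 :=
    ((congrArg (A.map i n (K.shiftResidue a P)) h3).symm.trans h1.symm).trans h2
  exact (A.map_injective_of_bijective i n _ (shiftResidue_bijective K a P)).1
    (h4.trans (map_zero _).symm)

/-- one translation is enough, in every characteristic -/
lemma vanish_of_fixes [PerfectField k] (i : ℤ) (n d : ℕ) [Infinite (Ext.tower k d)]
    {a : Ext.tower k d} (ha : a ≠ 0) (h : A.Fixes (i + 1) (n + 1) (Ext.tower k d) a) :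
    A.Vanish i n d := by
  refine A.vanish_of_residue i n d fun P => ?_
  obtain ⟨Q, hQ, ⟨e⟩⟩ := exists_moved P ha
  have h1 : Subsingleton (A.H i n ((Ext.tower k d).residue Q)) :=
    residue_of_moved A i n (Ext.tower k d) a h Q hQ
  have e' : (Ext.tower k d).residue P ≃ₐ[k] (Ext.tower k d).residue Q := e.restrictScalars k
  exact A.subsingleton_of_equiv i n e' h1

lemma infinite_tower (k : Type) [Field k] (d : ℕ) (hd : 1 ≤ d) : Infinite (Ext.tower k d) := by
  obtain ⟨d, rfl⟩ : ∃ d', d = d' + 1 := ⟨d - 1, by omega⟩
  exact Infinite.of_injective (algebraMap (Ext.tower k d)[X] (RatFunc (Ext.tower k d)))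
    (RatFunc.algebraMap_injective _)

/-- **Theorem.** If `H^*(k, n) = 0` for `n ≥ 1`, the vanishing of `H^i(F, n)` for the fields of
transcendence degree at most `d ≥ 1` is equivalent to each of the following: `H^(i+1)(K_(d+1), n+1)` is
zero; it is finitely generated; the translation `t ↦ t + 1` acts trivially on it; few translates. -/
theorem field_tfae [PerfectField k]
    (hq : ∀ (i : ℤ) (n : ℕ), 1 ≤ n → Subsingleton (A.H i n (Ext.base k)))
    (i : ℤ) (n d : ℕ) (hd : 1 ≤ d) :
    List.TFAE [
      A.Vanish i n d,
      Subsingleton (A.H (i + 1) (n + 1) (Ext.tower k (d + 1))),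
      Module.Finite R (A.H (i + 1) (n + 1) (Ext.tower k (d + 1))),
      A.Fixes (i + 1) (n + 1) (Ext.tower k d) 1,
      A.FewTranslates (i + 1) (n + 1) (Ext.tower k d)] := by
  have hinf := infinite_tower k d hd
  tfae_have 1 → 2 := by
    intro h
    have h1 := A.rational_of_vanish i n d h
    have h2 := hq (i + 1) (n + 1) (by omega)
    exact h1.2.subsingleton
  tfae_have 2 → 3 := by
    intro h
    infer_instance
  tfae_have 2 → 4 := fun h x => h.elim _ _
  tfae_have 4 → 1 := fun h => vanish_of_fixes A i n d one_ne_zero h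
  tfae_have 3 → 5 := by
    intro h x
    exact ⟨Set.univ, ⊤, Set.infinite_univ, h.fg_top, fun a _ => Submodule.mem_sup_left trivial⟩
  tfae_have 5 → 1 := fun h => A.vanish_of_res i n d (A.res_eq_zero_of_few i n _ h)
  tfae_finish

end Pool.Agent.Run7.h406.PR
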