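import Pool.Agent.Run7.h406.PR.Fld
import Pool.Agent.Run7.h406.PR.Defs

/-!
# Growth of the cohomology of rational function fields
-/

set_option autoImplicit false

open Polynomial Pool.Agent.Run7.h384.RF

namespace Pool.Agent.Run7.h406.PR

/-- independent elements of a rational vector space in the image of a group of bounded rank -/
lemma card_le_of_rankLE {G H : Type} [AddCommGroup G] [AddCommGroup H] [Module ℚ H] (f : G →+ H)
    {N : ℕ} (hG : RankLE G N) (s : Finset H) (hs : LinearIndependent ℚ fun i : s => (i : H))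
    (hf : ∀ y ∈ s, y ∈ Set.range f) : s.card ≤ N := by
  classical
  by_contra hlt
  rw [not_le] at hlt
  obtain ⟨t, hts, htc⟩ := Finset.exists_subset_card_eq (show N + 1 ≤ s.card by omega)
  have ht : LinearIndependent ℚ fun i : t => (i : H) :=
    hs.comp (fun i : t => (⟨i.1, hts i.2⟩ : s)) fun i j hij => by
      have h1 : (⟨i.1, hts i.2⟩ : s) = ⟨j.1, hts j.2⟩ := hij
      exact Subtype.ext (congrArg (fun z : s => z.1) h1)
  let e : Fin (N + 1) ≃ t := (Fintype.equivFinOfCardEq (by simpa using htc)).symm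
  have hy := ht.comp e e.injective
  choose x hx' using fun i : Fin (N + 1) => hf (e i).1 (hts (e i).2)
  obtain ⟨c, hc0, hc⟩ := hG x
  have h1 := congrArg f hc
  rw [map_sum, map_zero] at h1
  simp only [map_zsmul, hx'] at h1
  rw [Fintype.linearIndependent_iff] at hy
  have h2 := hy (fun i => (c i : ℚ)) (by
    refine Eq.trans (Finset.sum_congr rfl fun i _ => ?_) h1
    exact (Int.cast_smul_eq_zsmul ℚ (c i) _))
  exact hc0 (funext fun i => by exact_mod_cast h2 i)

section shift

variable {K : Type} [Field K]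

lemma shift_shift (P : Pt K) (a b : K) : (P.shift a).shift b = P.shift (a + b) := by
  apply Subtype.ext
  change (P.1.comp (X + C a)).comp (X + C b) = P.1.comp (X + C (a + b))
  rw [comp_assoc]
  congr 1
  simp only [add_comp, X_comp, C_comp, C_add]
  ring

lemma shift_zero (P : Pt K) : P.shift 0 = P := by
  apply Subtype.ext
  change P.1.comp (X + C 0) = P.1
  simp

lemma shift_injective (a : K) : Function.Injective fun P : Pt K => P.shift a := by
  intro P Q h
  have h1 : (P.shift a).shift (-a) = (Q.shift a).shift (-a) := congrArg (fun R => R.shift (-a)) h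
  rwa [shift_shift, shift_shift, add_neg_cancel, shift_zero, shift_zero] at h1

end shift

variable {k : Type} [Field k] (A : Motivic k ℚ)

lemma supp_shift (i : ℤ) (n : ℕ) (K : Ext k) (a : K) (x : A.H (i + 1) (n + 1) K.rat) :
    A.supp i n K (A.map (i + 1) (n + 1) (K.shiftRat a) x) ⊆
      (fun Q : Pt K => Q.shift a) '' A.supp i n K x := by
  intro Q hQ
  obtain ⟨Q', rfl⟩ : ∃ Q' : Pt K, Q'.shift a = Q := ⟨Q.shift (-a), by
    rw [shift_shift, neg_add_cancel, shift_zero]⟩
  refine ⟨Q', fun h0 => hQ ?_, rfl⟩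
  rw [A.translation, h0, map_zero]

lemma mem_supp_shift (i : ℤ) (n : ℕ) (K : Ext k) (a : K) (x : A.H (i + 1) (n + 1) K.rat)
    (P : Pt K) (hP : P ∈ A.supp i n K x) :
    P.shift a ∈ A.supp i n K (A.map (i + 1) (n + 1) (K.shiftRat a) x) :=
  fun h => hP (A.at_shift_eq_zero i n K x a P h)

/-- The number of translations is bounded by the dimension of the space which the translates of an
element with a nonzero residue generate. -/
theorem card_le (i : ℤ) (n : ℕ) (K : Ext k) (x : A.H (i + 1) (n + 1) K.rat) (P : Pt K)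
    (hP : P ∈ A.supp i n K x) : ∃ C : ℕ, ∀ (T : Finset K) (B : Finset (A.H (i + 1) (n + 1) K.rat)),
      (∀ b ∈ B, ∃ a : K, b = A.map (i + 1) (n + 1) (K.shiftRat a) x) →
      (∀ a ∈ T, A.map (i + 1) (n + 1) (K.shiftRat a) x ∈ Submodule.span ℚ (B : Set _)) →
      T.card ≤ C * B.card := by
  classical
  have hD := shift_fiber_finite P P
  have hS := A.supp_finite i n K x
  refine ⟨hD.toFinset.card * hS.toFinset.card, fun T B hB hT => ?_⟩
  have h1 : T.card ≤ hD.toFinset.card * (T.image fun a => P.shift a).card := by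
    refine Finset.card_le_mul_card_image T _ fun Q hQ => ?_
    obtain ⟨a₀, -, rfl⟩ := Finset.mem_image.mp hQ
    refine (Finset.card_le_card (t := hD.toFinset.image fun c => c + a₀) ?_).trans
      Finset.card_image_le
    intro a ha
    rw [Finset.mem_filter] at ha
    rw [Finset.mem_image]
    refine ⟨a - a₀, ?_, sub_add_cancel a a₀⟩
    rw [Set.Finite.mem_toFinset, Set.mem_ofPred_eq]
    apply shift_injective a₀
    change (P.shift (a - a₀)).shift a₀ = P.shift a₀
    rw [shift_shift, sub_add_cancel]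
    exact ha.2
  have h2 : (T.image fun a => P.shift a) ⊆
      B.biUnion fun b => (A.supp_finite i n K b).toFinset := by
    intro Q hQ
    obtain ⟨a, ha, rfl⟩ := Finset.mem_image.mp hQ
    by_contra hcon
    have h3 : (A.res i n K (A.map (i + 1) (n + 1) (K.shiftRat a) x)).at (P.shift a) = 0 := by
      refine A.res_apply_of_mem i n K (P.shift a) (B : Set _) (fun g hg hgP => hcon ?_) ⊥ ?_ _ ?_
      · rw [Finset.mem_biUnion]
        exact ⟨g, hg, (Set.Finite.mem_toFinset _).mpr hgP⟩
      · intro g hg
        rw [(Submodule.mem_bot ℚ).mp hg, map_zero]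
      · exact Submodule.mem_sup_left (hT a ha)
    exact mem_supp_shift A i n K a x P hP h3
  have h3 : ∀ b ∈ B, (A.supp_finite i n K b).toFinset.card ≤ hS.toFinset.card := by
    intro b hb
    obtain ⟨a, rfl⟩ := hB b hb
    refine (Finset.card_le_card (t := hS.toFinset.image fun Q : Pt K => Q.shift a) ?_).trans
      Finset.card_image_le
    intro Q hQ
    rw [Set.Finite.mem_toFinset] at hQ
    obtain ⟨Q', hQ', rfl⟩ := supp_shift A i n K a x hQ
    exact Finset.mem_image.mpr ⟨Q', (Set.Finite.mem_toFinset _).mpr hQ', rfl⟩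
  have h4 : (T.image fun a => P.shift a).card ≤ B.card * hS.toFinset.card :=
    (Finset.card_le_card h2).trans (Finset.card_biUnion_le_card_mul _ _ _ h3)
  calc T.card ≤ hD.toFinset.card * (T.image fun a => P.shift a).card := h1
    _ ≤ hD.toFinset.card * (B.card * hS.toFinset.card) := Nat.mul_le_mul_left _ h4
    _ = hD.toFinset.card * hS.toFinset.card * B.card := by ring

/-- The same in terms of the rank of a group whose image contains the translates. -/
theorem card_le_rank (i : ℤ) (n : ℕ) (K : Ext k) (x : A.H (i + 1) (n + 1) K.rat) (P : Pt K)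
    (hP : P ∈ A.supp i n K x) : ∃ C : ℕ, ∀ (T : Finset K) (G : Type) [AddCommGroup G] (N : ℕ)
      (f : G →+ A.H (i + 1) (n + 1) K.rat), RankLE G N →
      (∀ a ∈ T, A.map (i + 1) (n + 1) (K.shiftRat a) x ∈ Set.range f) → T.card ≤ C * N := by
  classical
  obtain ⟨C, hC⟩ := card_le A i n K x P hP
  refine ⟨C, fun T G _ N f hG hT => ?_⟩
  let S : Finset (A.H (i + 1) (n + 1) K.rat) :=
    T.image fun a => A.map (i + 1) (n + 1) (K.shiftRat a) x
  obtain ⟨b, hbS, hspan, hind⟩ := exists_linearIndependent ℚ (S : Set (A.H (i + 1) (n + 1) K.rat))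
  have hbf : b.Finite := S.finite_toSet.subset hbS
  obtain ⟨B, rfl⟩ : ∃ B : Finset (A.H (i + 1) (n + 1) K.rat), (B : Set _) = b :=
    ⟨hbf.toFinset, hbf.coe_toFinset⟩
  have h1 : B.card ≤ N := by
    refine card_le_of_rankLE f hG B hind fun y hy => ?_
    obtain ⟨a, ha, rfl⟩ := Finset.mem_image.mp (hbS hy)
    exact hT a ha
  refine (hC T B (fun y hy => ?_) fun a ha => ?_).trans (Nat.mul_le_mul_left _ h1)
  · obtain ⟨a, -, rfl⟩ := Finset.mem_image.mp (hbS hy)
    exact ⟨a, rfl⟩
  · rw [hspan]
    exact Submodule.subset_span (Finset.mem_image_of_mem _ ha)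

/-- the number of polynomials -/
lemma exists_polys (k : Type) [Field k] (S : Set k) (T₀ : Finset k) (h₀ : ∀ a ∈ T₀, a ∈ S)
    (u d : ℕ) : ∃ T : Finset (Ext.tower k d), (∀ a ∈ T, IsPoly k S u d a) ∧
      T.card = T₀.card ^ (u + 1) ^ d := by
  classical
  induction d with
  | zero =>
    refine ⟨T₀, fun a ha => IsPoly.zero a (h₀ a ha), ?_⟩
    rw [pow_zero, pow_one]
    rfl
  | succ d ih =>
    obtain ⟨T, hT, hTc⟩ := ih
    let ψ : (Fin (u + 1) → Ext.tower k d) → (Ext.tower k d)[X] := fun c =>
      ∑ j : Fin (u + 1), monomial (j : ℕ) (c j)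
    let φ : (Fin (u + 1) → Ext.tower k d) → Ext.tower k (d + 1) := fun c =>
      algebraMap (Ext.tower k d)[X] (RatFunc (Ext.tower k d)) (ψ c)
    have hcoeff : ∀ (c : Fin (u + 1) → Ext.tower k d) (j : Fin (u + 1)),
        (ψ c).coeff j = c j := by
      intro c j
      change (∑ j : Fin (u + 1), monomial (j : ℕ) (c j)).coeff j = c j
      rw [finsetSum_coeff, Finset.sum_eq_single j]
      · rw [coeff_monomial, if_pos rfl]
      · intro j' _ hj
        rw [coeff_monomial, if_neg fun h => hj (Fin.ext h)]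
      · exact fun h => absurd (Finset.mem_univ j) h
    have hφ : Function.Injective φ := by
      intro c c' h
      have h1 : ψ c = ψ c' := RatFunc.algebraMap_injective _ h
      funext j
      rw [← hcoeff c j, ← hcoeff c' j, h1]
    refine ⟨(Fintype.piFinset fun _ : Fin (u + 1) => T).image φ, ?_, ?_⟩
    · intro a ha
      obtain ⟨c, hc, rfl⟩ := Finset.mem_image.mp ha
      rw [Fintype.mem_piFinset] at hc
      refine IsPoly.succ d (ψ c) ?_ fun j hj => ?_
      · refine natDegree_sum_le_of_forall_le _ _ fun j _ => ?_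
        exact (natDegree_monomial_le _).trans (Nat.lt_succ_iff.mp j.2)
      · have h1 := hcoeff c ⟨j, Nat.lt_succ_iff.mpr hj⟩
        change (ψ c).coeff j = _ at h1
        rw [h1]
        exact hT _ (hc _)
    · refine (Finset.card_image_of_injective _ hφ).trans ?_
      rw [Fintype.card_piFinset_const, hTc, ← pow_mul, pow_succ]

end Pool.Agent.Run7.h406.PR
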