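import Pool.Agent.Run7.h406.PR.Sch

/-!
# The homological Parshin conjecture and rational function fields
-/

set_option autoImplicit false

open CategoryTheory AlgebraicGeometry Pool.Agent.Y116.UV Pool.Agent.Run7.h902
open Pool.Agent.Run7.h384.RF (Ext Motivic)

namespace Pool.Agent.Run7.h406.PR

variable {k : Type} [Field k]

lemma tot_above (C : Cw.Chow k) (b c : ℤ) :
    Cu.Tot True fun X => ∀ m : ℕ, c < m → Subsingleton (C.G b m X) where
  iso := by
    intro X Y hX e hP m hm
    obtain ⟨g⟩ := C.iso b m X Y hX e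
    have := hP m hm
    exact g.symm.toEquiv.subsingleton
  empty X hX m _ := C.empty b m X hX
  total := by
    intro Z X U i j hX ht hZ hU m hm
    obtain ⟨f, g, hfg⟩ := C.localization b m Z X U i j hX ht
    exact Cw.sub_mid hfg (hZ m hm) (hU m hm)

/-- the vanishing for schemes of smaller dimension -/
lemma small_above (B : BorelMoore k) (b : ℤ) {e n : ℕ} (hen : e ≤ n)
    (ih : ∀ e' < n, B.Above b e') {Z : Sch k} (hZ : FT True Z)
    (hZd : topologicalKrullDim Z.left < e) (m : ℕ) (hm : (e : ℤ) - b < m + 1) :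
    Subsingleton (B.C.G b m Z) := by
  rcases e with _ | e
  · exact B.C.empty _ _ Z (Cw.empty_of_dim (by exact_mod_cast hZd))
  · refine ih e (by omega) e le_rfl Z hZ ?_ m (by push_cast at hm; omega)
    rcases eq_or_ne (topologicalKrullDim Z.left) ⊥ with hb | hb
    · rw [hb]; exact bot_le
    obtain ⟨x, hx⟩ := WithBot.ne_bot_iff_exists.mp hb
    rw [← hx] at hZd ⊢
    have h3 : x < ((e + 1 : ℕ) : ℕ∞) := by exact_mod_cast hZd
    obtain ⟨y, hy⟩ := ENat.ne_top_iff_exists.mp (ne_top_of_lt h3)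
    rw [← hy] at h3 ⊢
    have h4 : y < e + 1 := by exact_mod_cast h3
    exact_mod_cast Nat.lt_succ_iff.mp h4

/-- from smooth projective varieties to all schemes -/
theorem above_of_parshin [PerfectField k] (B : BorelMoore k) (b : ℤ) (d : ℕ)
    (h : B.Parshin b d) : B.Above b d := by
  have key : ∀ n ≤ d, B.Above b n := by
    intro n
    induction n using Nat.strong_induction_on with
    | _ n ih =>
      intro hnd e₀ he₀ X hX hXn
      rcases lt_or_eq_of_le he₀ with hlt | rfl
      · exact ih e₀ hlt (by omega) e₀ le_rfl X hX hXn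
      refine Cx.fixed_dim (Cu.generic_field k) (tot_above B.C b _) e₀
        (fun A _ _ _ hd hN hN2 _ => ?_) X hX hXn
      obtain ⟨e, he⟩ := Cw.exists_dim (k := k) A hN2
      rw [Cw.dim_aff] at he
      have hen : e ≤ e₀ := by
        rw [he] at hN2
        exact_mod_cast hN2
      have ih' : ∀ e' < e₀, B.Above b e' := fun e' he' => ih e' he' (by omega)
      intro m hm
      have hem : (e : ℤ) - b < m := by
        have : (e : ℤ) ≤ e₀ := by exact_mod_cast hen
        omega
      rcases lt_or_ge (e : ℤ) b with hlt | hge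
      · exact B.C.dim b m (aff k A) (ft_aff True) e ((Cw.dim_aff k A).trans he) hlt
      obtain ⟨m, rfl⟩ : ∃ m', m = m' + 1 := ⟨m - 1, by omega⟩
      obtain ⟨Z, U, Z', U', Y, i, j, i', j', ht, ht', ⟨hZ, hZ', hU'⟩, hY, ⟨hd1, hd2, hd3⟩, hinj⟩ :=
        B.alteration A hd hN
      rw [he] at hd1 hd2 hd3
      have hU'v : Subsingleton (B.C.G b (m + 1) U') := by
        obtain ⟨f, g, hfg⟩ := B.boundary b m Z' Y U' i' j' hY.ft ht'
        refine Cw.sub_mid hfg (h Y hY ?_ (m + 1) (by omega))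
          (small_above B b hen ih' hZ' hd2 m (by push_cast at hem; omega))
        rw [hd3]
        exact_mod_cast hen.trans hnd
      obtain ⟨f, g, hfg⟩ := B.C.localization b (m + 1) Z (aff k A) U i j (ft_aff True) ht
      refine Cw.sub_mid hfg (small_above B b hen ih' hZ hd1 (m + 1) (by push_cast at hem ⊢; omega)) ?_
      obtain ⟨g, hg⟩ := hinj b (m + 1)
      exact hg.subsingleton
  exact key d le_rfl

variable (E : Motives k)

/-- from schemes to fields -/
lemma vanish_of_above [PerfectField k] (b : ℤ) (d n : ℕ) (hn : (n : ℤ) = d - b)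
    (h : E.Above b d) (i : ℤ) (hi : i < n) : E.fields.Vanish i n d := by
  refine E.fields.vanish_of_residue i n d fun P => ?_
  obtain ⟨m, rfl⟩ : ∃ m : ℕ, i = 2 * (n : ℤ) - m := ⟨(2 * (n : ℤ) - i).toNat, by omega⟩
  have hfg := Pool.Agent.Run7.h384.RF.fg_tower (k := k) d
  have hfg' := Pool.Agent.Run7.h384.RF.fg_residue (Ext.tower k d) P
  refine subsingleton_of_forall_eq 0 fun y => ?_
  obtain ⟨e, M, x, hx⟩ := E.restriction.exhaust n m _ y hfg'
  have hft := M.finiteType
  have hed : e = d := by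
    have h1 := M.trdeg
    rw [Pool.Agent.Run7.h384.RF.trdeg_residue, Pool.Agent.Run7.h384.RF.trdeg_tower] at h1
    exact_mod_cast h1.symm
  subst hed
  have h1 : topologicalKrullDim M.scheme.left = e := (Cw.dim_aff k M.A).trans M.dim
  have h2 := h e le_rfl M.scheme (ft_aff True) h1.le m (by omega)
  have h3 : ((e : ℤ) - (n : ℤ)) = b := by omega
  have h4 : Subsingleton (codim E.C n m e M.scheme) := by
    change Subsingleton (E.C.G ((e : ℤ) - (n : ℤ)) m M.scheme)
    rw [h3]; exact h2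
  rw [Subsingleton.elim x 0, map_zero] at hx
  exact hx.symm

/-- from fields to schemes -/
lemma above_of_vanish [PerfectField k] (b : ℤ) (d : ℕ)
    (h : ∀ e ≤ d, ∀ n : ℕ, (n : ℤ) = e - b → ∀ i < (n : ℤ), E.fields.Vanish i n e) :
    E.Above b d := by
  have key : ∀ n ≤ d, E.Above b n := by
    intro n
    induction n using Nat.strong_induction_on with
    | _ n ih =>
      intro hnd e₀ he₀ X hX hXn
      rcases lt_or_eq_of_le he₀ with hlt | rfl
      · exact ih e₀ hlt (by omega) e₀ le_rfl X hX hXn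
      refine Cx.fixed_dim (Cu.generic_field k) (tot_above E.C b _) e₀
        (fun A _ _ _ hd hN hN2 _ => ?_) X hX hXn
      obtain ⟨e, he⟩ := Cw.exists_dim (k := k) A hN2
      rw [Cw.dim_aff] at he
      have hen : e ≤ e₀ := by
        rw [he] at hN2
        exact_mod_cast hN2
      have ih' : ∀ e' < e₀, E.Above b e' := fun e' he' => ih e' he' (by omega)
      intro m hm
      have hem : (e : ℤ) - b < m := by
        have : (e : ℤ) ≤ e₀ := by exact_mod_cast hen
        omega
      rcases lt_or_ge (e : ℤ) b with hlt | hge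
      · exact E.C.dim b m (aff k A) (ft_aff True) e ((Cw.dim_aff k A).trans he) hlt
      obtain ⟨n, hn⟩ : ∃ n : ℕ, (n : ℤ) = e - b := ⟨(e - b : ℤ).toNat, by omega⟩
      let M := fractionModel A hN e he
      have h3 : ((e : ℤ) - (n : ℤ)) = b := by omega
      have key : Subsingleton (codim E.C n m e M.scheme) := by
        refine subsingleton_of_forall_eq 0 fun x => ?_
        have h4 : Subsingleton (E.fields.H (2 * (n : ℤ) - m) n ⟨FractionRing A⟩) :=
          h e (hen.trans hnd) n hn _ (by omega) _ M.fg M.trdeg.le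
        obtain ⟨Z, U, i, j, ht, hZ, hZd, f, z, hz⟩ :=
          E.restriction.support n m e _ M x (h4.elim _ _)
        have hz' : f z = x := hz
        have h5 : Subsingleton (codim E.C n m e Z) := by
          change Subsingleton (E.C.G ((e : ℤ) - (n : ℤ)) m Z)
          rw [h3]
          exact small_above E.toBorelMoore b hen ih' hZ hZd m (by omega)
        have hz0 : f z = 0 := by rw [Subsingleton.elim z 0, map_zero]
        exact hz'.symm.trans hz0
      change Subsingleton (E.C.G ((e : ℤ) - (n : ℤ)) m M.scheme) at key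
      rw [h3] at key
      exact key
  exact key d le_rfl

lemma allPoly_ne_zero (N r : ℕ) : allPoly k N r ≠ 0 := by
  classical
  rw [allPoly]
  by_cases h : {f : MvPolynomial (Fin N) k | f ≠ 0 ∧ f.totalDegree ≤ r}.Finite
  · rw [finprod_mem_eq_finite_toFinset_prod _ h, Finset.prod_ne_zero_iff]
    intro f hf
    rw [Set.Finite.mem_toFinset] at hf
    exact hf.1
  · exact finprod_mem_induction (p := fun f => f ≠ 0) one_ne_zero
      (fun f g hf hg => mul_ne_zero hf hg) (fun f hf => hf.1)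

lemma dim_hypersurface {d : ℕ} {f : MvPolynomial (Fin (d + 1)) k} (hf : f ≠ 0) :
    ringKrullDim (MvPolynomial (Fin (d + 1)) k ⧸ Ideal.span {f}) ≤ d := by
  have h1 := ringKrullDim_quotient_succ_le_of_nonZeroDivisor (mem_nonZeroDivisors_of_ne_zero hf)
  have h2 : ringKrullDim (MvPolynomial (Fin (d + 1)) k) = d + 1 := by
    rw [MvPolynomial.ringKrullDim_of_isNoetherianRing, ringKrullDim_eq_zero_of_field, zero_add]
    simp
  rw [h2] at h1
  exact (ENat.WithBot.add_le_add_one_right_iff).mp h1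

/-- the complements of hypersurfaces in the affine space -/
lemma compl_of_above (B : BorelMoore k) (b : ℤ) (d : ℕ) (hbd : b ≤ d) (h : B.Above b d)
    (f : MvPolynomial (Fin (d + 1)) k) (hf : f ≠ 0) (m : ℕ) (hm : (d : ℤ) + 1 - b < m) :
    Subsingleton (B.C.G b m (complS f)) := by
  obtain ⟨m, rfl⟩ : ∃ m', m = m' + 1 := ⟨m - 1, by omega⟩
  obtain ⟨f', g, hfg⟩ := B.boundary b m _ _ _ _ _ (ft_aff True) (triple_away (R := k) f)
  refine Cw.sub_mid hfg (B.affineSpace (d + 1) b (m + 1) (by omega)) ?_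
  refine h d le_rfl _ (ft_aff True) ?_ m (by push_cast at hm; omega)
  rw [Cw.dim_aff]
  exact dim_hypersurface hf

lemma compl_of_all (B : BorelMoore k) (b : ℤ) (hb : b < 0) (d : ℕ) (h : B.AllVanish b d)
    (f : MvPolynomial (Fin (d + 1)) k) (hf : f ≠ 0) (m : ℕ) :
    Subsingleton (B.C.G b m (complS f)) := by
  rcases m with _ | m
  · exact B.negative b 0 _ (ft_aff True) (by simpa using hb)
  obtain ⟨f', g, hfg⟩ := B.boundary b m _ _ _ _ _ (ft_aff True) (triple_away (R := k) f)
  refine Cw.sub_mid hfg (B.affineSpace (d + 1) b (m + 1) (by omega)) ?_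
  refine h _ (ft_aff True) ?_ m
  rw [Cw.dim_aff]
  exact dim_hypersurface hf

lemma slow_of_compl [Finite k] (B : BorelMoore k) (b : ℤ) (d m : ℕ)
    (h : ∀ f : MvPolynomial (Fin (d + 1)) k, f ≠ 0 → Subsingleton (B.C.G b m (complS f))) :
    B.SlowGrowth b d m := by
  refine fun C s => ⟨1, 0, le_rfl, ?_, fun x => ⟨fun _ => 1, ?_, ?_⟩⟩
  · rw [mul_zero]
    exact pow_pos Nat.card_pos _
  · intro h0
    exact one_ne_zero (congrFun h0 0)
  · exact (h _ (allPoly_ne_zero (d + 1) _)).elim _ _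

lemma opens_at (n m d : ℕ) (j : ℤ) (hj : j = 2 * (n : ℤ) - m) :
    ∃ f : ∀ r : ℕ, codim E.C n m (d + 1) (bigOpen k (d + 1) r) →+
        E.fields.H j n (Ext.tower k (d + 1)),
      (∀ y, ∃ r : ℕ, y ∈ Set.range (f r)) ∧
      ∀ u r : ℕ, 1 ≤ d → 1 ≤ u → ∀ a, IsPoly k Set.univ u d a → ∀ y ∈ Set.range (f r),
        E.fields.map j n ((Ext.tower k d).shiftRat a) y ∈ Set.range (f (r * (d * u))) := by
  subst hj
  refine ⟨fun r => E.opens.opens n m (d + 1) r, fun y => ?_, ?_⟩
  · obtain ⟨r, x, hx⟩ := E.opens.exhaust n m (d + 1) y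
    exact ⟨r, x, hx⟩
  · rintro u r hd hu a ha _ ⟨x, rfl⟩
    obtain ⟨x', hx'⟩ := E.opens.shift n m d u r a hd hu ha x
    exact ⟨x', hx'⟩

/-- slow growth implies vanishing -/
theorem vanish_of_slow [Finite k] (n m d : ℕ) (i : ℤ) (hd : 1 ≤ d)
    (hi : i + 1 = 2 * ((n + 1 : ℕ) : ℤ) - m)
    (h : E.SlowGrowth (((d + 1 : ℕ) : ℤ) - ((n + 1 : ℕ) : ℤ)) d m) : E.fields.Vanish i n d := by
  refine E.fields.vanish_of_res i n d fun x => ?_
  refine Pool.Agent.Run7.h384.RF.Theory.Residues.ext fun P => ?_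
  by_contra hP
  obtain ⟨C, hC⟩ := card_le_rank E.fields i n (Ext.tower k d) x P hP
  obtain ⟨f, hf1, hf2⟩ := opens_at E (n + 1) m d (i + 1) hi
  obtain ⟨r, hr⟩ := hf1 x
  obtain ⟨u, N, hu, hlt, hrk⟩ := h C r
  have : Fintype k := Fintype.ofFinite k
  obtain ⟨T, hT, hTc⟩ := exists_polys k Set.univ Finset.univ (fun _ _ => trivial) u d
  have h1 := hC T _ N (f (r * (d * u))) hrk fun a ha => hf2 u r hd hu a (hT a ha) x hr
  rw [hTc, Finset.card_univ, ← Nat.card_eq_fintype_card] at h1
  exact absurd hlt (not_lt.mpr h1)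

/-- vanishing for smaller transcendence degrees -/
lemma vanish_lower {R : Type} [CommRing R] (A : Motivic k R) (j : ℕ) (i : ℤ) (n d : ℕ)
    (h : A.Vanish (i + j) (n + j) (d + j)) : A.Vanish i n d := by
  induction j with
  | zero => simpa using h
  | succ j ih =>
    refine ih (A.vanish_shift _ _ _ ?_)
    have h1 : i + ((j + 1 : ℕ) : ℤ) = i + (j : ℤ) + 1 := by push_cast; ring
    rw [h1] at h
    exact h

/-- **Theorem.** The vanishing in the degrees `i > e + b`, for all integers `b`. -/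
theorem above_tfae [Finite k] (b : ℤ) (d n : ℕ) (hd : 1 ≤ d) (hn : (n : ℤ) = d - b) :
    List.TFAE [
      E.Above b d,
      E.FieldsVanish (Set.Iio (n : ℤ)) n d,
      E.Zero (Set.Iic (n : ℤ)) (n + 1) (d + 1),
      E.FinDim (Set.Iic (n : ℤ)) (n + 1) (d + 1),
      E.Fixed (Set.Iic (n : ℤ)) (n + 1) d,
      E.Few (Set.Iic (n : ℤ)) (n + 1) d,
      E.Complements b d (Set.Ioi (n + 1)),
      E.Slow b d (Set.Ioi (n + 1))] := by
  have key := fun i => field_tfae E.fields E.quillen i n d hd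
  have re : ∀ {Q : ℤ → Prop}, (∀ i, E.fields.Vanish i n d ↔ Q (i + 1)) →
      (E.FieldsVanish (Set.Iio (n : ℤ)) n d ↔ ∀ i ∈ Set.Iic (n : ℤ), Q i) := by
    intro Q hQ
    constructor
    · intro h i hi
      rw [Set.mem_Iic] at hi
      have := (hQ (i - 1)).mp (h (i - 1) (by rw [Set.mem_Iio]; omega))
      rwa [sub_add_cancel] at this
    · intro h i hi
      rw [Set.mem_Iio] at hi
      exact (hQ i).mpr (h (i + 1) (by rw [Set.mem_Iic]; omega))
  tfae_have 1 → 2 := fun h i hi => vanish_of_above E b d n hn h i hi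
  tfae_have 2 → 1 := by
    intro h
    refine above_of_vanish E b d fun e he n' hn' i hi => ?_
    obtain ⟨j, rfl⟩ : ∃ j : ℕ, d = e + j := ⟨d - e, by omega⟩
    obtain rfl : n = n' + j := by omega
    exact vanish_lower E.fields j i n' e (h (i + j) (by rw [Set.mem_Iio]; push_cast; omega))
  tfae_have 2 ↔ 3 := re (Q := fun i => Subsingleton (E.fields.H i (n + 1) (Ext.tower k (d + 1))))
    fun i => (key i).out 0 1
  tfae_have 2 ↔ 4 := re (Q := fun i => Module.Finite ℚ (E.fields.H i (n + 1) (Ext.tower k (d + 1))))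
    fun i => (key i).out 0 2
  tfae_have 2 ↔ 5 := re (Q := fun i => Fixes E.fields i (n + 1) (Ext.tower k d) 1)
    fun i => (key i).out 0 3
  tfae_have 2 ↔ 6 := re (Q := fun i => FewTranslates E.fields i (n + 1) (Ext.tower k d))
    fun i => (key i).out 0 4
  tfae_have 1 → 7 := fun h f hf m hm =>
    compl_of_above E.toBorelMoore b d (by omega) h f hf m (by rw [Set.mem_Ioi] at hm; omega)
  tfae_have 7 → 8 := fun h m hm => slow_of_compl E.toBorelMoore b d m
    fun f hf => h f hf m hm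
  tfae_have 8 → 2 := by
    intro h i hi
    rw [Set.mem_Iio] at hi
    obtain ⟨m, hm⟩ : ∃ m : ℕ, i + 1 = 2 * ((n + 1 : ℕ) : ℤ) - m :=
      ⟨(2 * ((n + 1 : ℕ) : ℤ) - (i + 1)).toNat, by omega⟩
    refine vanish_of_slow E n m d i hd hm ?_
    have h1 : ((d + 1 : ℕ) : ℤ) - ((n + 1 : ℕ) : ℤ) = b := by push_cast; omega
    rw [h1]
    exact h m (by rw [Set.mem_Ioi]; push_cast at hm; omega)
  tfae_finish

/-- **Theorem.** The homological Parshin conjecture `P_b` for `b < 0`, dimension by dimension. -/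
theorem parshin_tfae [Finite k] (b : ℤ) (hb : b < 0) (d n : ℕ) (hd : 1 ≤ d)
    (hn : (n : ℤ) = d - b) :
    List.TFAE [
      E.Parshin b d,
      E.AllVanish b d,
      E.FieldsVanish Set.univ n d,
      E.Zero Set.univ (n + 1) (d + 1),
      E.FinDim Set.univ (n + 1) (d + 1),
      E.Fixed Set.univ (n + 1) d,
      E.Few Set.univ (n + 1) d,
      E.Complements b d Set.univ,
      E.Slow b d Set.univ] := by
  have key := fun i => field_tfae E.fields E.quillen i n d hd
  obtain ⟨β, rfl⟩ : ∃ β : ℕ, b = -(β : ℤ) := ⟨(-b).toNat, by omega⟩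
  obtain rfl : n = d + β := by omega
  have re : ∀ {Q : ℤ → Prop}, (∀ i, E.fields.Vanish i (d + β) d ↔ Q (i + 1)) →
      (E.FieldsVanish Set.univ (d + β) d ↔ ∀ i ∈ (Set.univ : Set ℤ), Q i) := by
    intro Q hQ
    constructor
    · intro h i _
      have := (hQ (i - 1)).mp (h (i - 1) trivial)
      rwa [sub_add_cancel] at this
    · intro h i _
      exact (hQ i).mpr (h (i + 1) trivial)
  tfae_have 1 → 2 := fun h => all_of_parshin E.toBorelMoore (-(β : ℤ)) hb d h d le_rfl
  tfae_have 2 → 1 := fun h Y hY hYd m _ => h Y hY.ft hYd m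
  tfae_have 2 → 3 := fun h i _ => vanish_of_all E β d h i
  tfae_have 3 → 2 := by
    intro h
    refine all_of_vanish E β d (fun e he i => ?_) d le_rfl
    obtain ⟨j, rfl⟩ : ∃ j : ℕ, d = e + j := ⟨d - e, by omega⟩
    refine vanish_lower E.fields j i (e + β) e ?_
    have h1 : e + β + j = e + j + β := by ring
    rw [h1]
    exact h (i + j) trivial
  tfae_have 3 ↔ 4 := re (Q := fun i =>
    Subsingleton (E.fields.H i (d + β + 1) (Ext.tower k (d + 1)))) fun i => (key i).out 0 1
  tfae_have 3 ↔ 5 := re (Q := fun i =>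
    Module.Finite ℚ (E.fields.H i (d + β + 1) (Ext.tower k (d + 1)))) fun i => (key i).out 0 2
  tfae_have 3 ↔ 6 := re (Q := fun i => Fixes E.fields i (d + β + 1) (Ext.tower k d) 1)
    fun i => (key i).out 0 3
  tfae_have 3 ↔ 7 := re (Q := fun i => FewTranslates E.fields i (d + β + 1) (Ext.tower k d))
    fun i => (key i).out 0 4
  tfae_have 2 → 8 := fun h f hf m _ => compl_of_all E.toBorelMoore (-(β : ℤ)) hb d h f hf m
  tfae_have 8 → 9 := fun h m _ => slow_of_compl E.toBorelMoore (-(β : ℤ)) d m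
    fun f hf => h f hf m trivial
  tfae_have 9 → 3 := by
    intro h i _
    rcases lt_or_ge (((d + β) + 1 : ℕ) : ℤ) (i + 1) with hi | hi
    · refine E.fields.vanish_of_res i (d + β) d fun x => ?_
      have := E.high (i + 1) (d + β + 1) (Ext.tower k d).rat hi
      rw [Subsingleton.elim x 0, map_zero]
    obtain ⟨m, hm⟩ : ∃ m : ℕ, i + 1 = 2 * (((d + β) + 1 : ℕ) : ℤ) - m :=
      ⟨(2 * (((d + β) + 1 : ℕ) : ℤ) - (i + 1)).toNat, by omega⟩
    refine vanish_of_slow E (d + β) m d i hd hm ?_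
    have h1 : ((d + 1 : ℕ) : ℤ) - (((d + β) + 1 : ℕ) : ℤ) = -(β : ℤ) := by push_cast; ring
    rw [h1]
    exact h m trivial
  tfae_finish

lemma Parshin.mono {B : BorelMoore k} {b : ℤ} {d d' : ℕ} (hd : d ≤ d') (h : B.Parshin b d') :
    B.Parshin b d :=
  fun Y hY hYd => h Y hY (hYd.trans (by exact_mod_cast hd))

/-- **Theorem.** The homological Parshin conjecture `P_b` for `b < 0`. -/
theorem parshin_all [Finite k] (b : ℤ) (hb : b < 0) :
    (∀ d, E.Parshin b d) ↔ ∀ D : ℕ, ∃ d n : ℕ, D ≤ d ∧ (n : ℤ) = d - b ∧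
      E.FinDim Set.univ n d := by
  constructor
  · intro h D
    refine ⟨D + 2, (D + 2 - b : ℤ).toNat, by omega, by omega, ?_⟩
    have h1 : (((D + 1 - b : ℤ).toNat : ℕ) : ℤ) = ((D + 1 : ℕ) : ℤ) - b := by push_cast; omega
    have h2 : E.FinDim Set.univ ((D + 1 - b : ℤ).toNat + 1) (D + 1 + 1) :=
      ((parshin_tfae E b hb (D + 1) _ (by omega) h1).out 0 4).mp (h (D + 1))
    have h3 : (D + 2 - b : ℤ).toNat = (D + 1 - b : ℤ).toNat + 1 := by omega
    rw [h3]
    exact h2
  · intro h d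
    obtain ⟨d', n, hd', hn, hf⟩ := h (d + 2)
    obtain ⟨d', rfl⟩ : ∃ e, d' = e + 1 := ⟨d' - 1, by omega⟩
    obtain ⟨n, rfl⟩ : ∃ n', n = n' + 1 := ⟨n - 1, by omega⟩
    have h1 : (n : ℤ) = d' - b := by push_cast at hn; omega
    have h2 : E.Parshin b d' :=
      ((parshin_tfae E b hb d' n (by omega) h1).out 0 4).mpr hf
    exact Parshin.mono (by omega) h2

end Pool.Agent.Run7.h406.PR
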