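import Pool.Agent.Run7.h406.PR.Defs

/-!
# Vanishing in negative degrees and the fields `ℚ(t_1, …, t_d)`: definitions
-/

set_option autoImplicit false

open CategoryTheory AlgebraicGeometry Pool.Agent.Y116.UV Pool.Agent.Run7.h902
open Pool.Agent.Run7.h384.RF (Ext Motivic)

namespace Pool.Agent.Run7.h406.PR

/-- The integers of absolute value at most `u`, as rational numbers. -/
def ints (u : ℕ) : Set ℚ := {x | ∃ c : ℤ, |c| ≤ u ∧ (c : ℚ) = x}

/-- The product of all nonzero polynomials in `N` variables of degree at most `h` with integer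
coefficients of absolute value at most `h`. -/
noncomputable def allIntPoly (N h : ℕ) : MvPolynomial (Fin N) ℚ :=
  ∏ᶠ f ∈ {f : MvPolynomial (Fin N) ℤ | f ≠ 0 ∧ f.totalDegree ≤ h ∧ ∀ m, |f.coeff m| ≤ h},
    f.map (Int.castRingHom ℚ)

/-- The complement `V_h` in the affine space `𝔸^N` over `ℚ` of all hypersurfaces which are given by
polynomials of degree at most `h` with integer coefficients of absolute value at most `h`. -/
noncomputable def heightOpen (N h : ℕ) : Sch ℚ := complS (allIntPoly N h)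

/-- If `f` has degree at most `h` and integer coefficients of absolute value at most `h`, and `a` is a
polynomial in `t_1, …, t_d` of degree at most `u` in each variable with integer coefficients of
absolute value at most `u`, `u ≥ 1`, then the degree of `f(t_1, …, t_d, t_(d+1) + a)` and the absolute
values of its coefficients are at most this number. -/
def heightBound (d h u : ℕ) : ℕ := h * (h + 1) ^ (d + 1) * (1 + u * (u + 1) ^ d) ^ h

/-- The classes on the open subschemes `V_h` of the affine space over `ℚ`: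

* `opens`, `exhaust`: `H^(2 n - m)(ℚ(t_1, …, t_N), ℚ(n))` is the union of the images of the groups
  `CH^n(V_h, m) ⊗ ℚ`;
* `shift`: if `a` is a polynomial of degree at most `u` in each of `t_1, …, t_d` with integer coefficients of
  absolute value at most `u`, `u ≥ 1`, the translation `t_(d+1) ↦ t_(d+1) + a` maps the image of
  `CH(V_h)` to the image of `CH(V_h')`, `h' = heightBound d h u`. -/
structure HeightOpens (C : Cw.Chow ℚ) (A : Motivic ℚ ℚ) where
  opens : ∀ n m N h : ℕ, codim C n m N (heightOpen N h) →+ coh A n m (Ext.tower ℚ N)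
  exhaust : ∀ n m N : ℕ, Exhausts (opens n m N)
  shift : ∀ (n m d u h : ℕ) (a : Ext.tower ℚ d), 1 ≤ u → IsPoly ℚ (ints u) u d a →
    Moves (opens n m (d + 1)) (cohShift A n m (Ext.tower ℚ d) a) h (heightBound d h u)

/-- `Y` is a smooth integral scheme of finite type and of dimension `e` over `k`. -/
def SmoothVariety {k : Type} [Field k] (Y : Sch k) (e : ℕ) : Prop :=
  FT True Y ∧ IsIntegral Y.left ∧ Smooth Y.hom ∧ topologicalKrullDim Y.left = e

/-- `X` is a smooth scheme of finite type and of dimension `e` over `k`. -/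
def SmoothOfDim {k : Type} [Field k] (X : Sch k) (e : ℕ) : Prop :=
  FT True X ∧ Smooth X.hom ∧ topologicalKrullDim X.left = e

/-- The element `x` is in the image of a homomorphism `L → M`. -/
def ComesFrom (L : Type) {M : Type} [AddCommGroup L] [AddCommGroup M] (x : M) : Prop :=
  ∃ f : L →+ M, x ∈ Set.range f

/-- Rational higher Chow groups of complex schemes (`Cw.ChowC`: localization, resolution of singularities)
and of schemes over `ℚ`, with the known relations:

* `model`: every element of `CH^n(X, m)`, `X` a smooth projective complex variety, is the pull-back of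
  an element of `CH^n(Y, m)` where `Y` is smooth and integral over `ℚ` (`X` is a limit of such `Y`);
* `inj`: for a smooth integral scheme `Y` over `ℚ` the base change
  `CH^n(Y, m) → CH^n(X, m)`, `X = Y ⊗ ℂ`, is injective. -/
structure ChowPair where
  complex : Cw.ChowC
  rational : Cw.Chow ℚ
  model : ∀ (X : Sch ℂ) (e n m : ℕ) (x : codim complex.C n m e X), Cw.SmoothProjective X →
    topologicalKrullDim X.left = e → ∃ (Y : Sch ℚ) (e₀ : ℕ), SmoothVariety Y e₀ ∧
      ComesFrom (codim rational n m e₀ Y) x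
  inj : ∀ (Y : Sch ℚ) (e n m : ℕ), SmoothVariety Y e → ∃ X : Sch ℂ, SmoothOfDim X e ∧
    Embeds (codim rational n m e Y) (codim complex.C n m e X)

/-- Rational higher Chow groups of schemes of finite type over `ℂ` and over `ℚ` and rational motivic cohomology `H^i(F, ℚ(n))` of the extension fields
`F` of `ℚ` (`Motivic`: the split exact sequence for `K(t)`, compatible with translations), with their
known properties and relation:

* `boundary`: `CH_b(X, m + 1) → CH_b(U, m + 1) → CH_b(Z, m)` is exact;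
* `affineSpace`, `borel`: `H^i(𝔸^N, ℚ(n)) = H^i(ℚ, ℚ(n)) = 0` for `i ≤ 0`, `n ≥ 1` (homotopy invariance
  and the theorem of Borel). -/
structure RationalMotives where
  chow : ChowPair
  boundary : ∀ (b : ℤ) (m : ℕ) (Z X U : Sch ℚ) (i : Z ⟶ X) (j : U ⟶ X), FT True X →
    IsTriple i j → ExactSeq (chow.rational.G b (m + 1) X) (chow.rational.G b (m + 1) U) (chow.rational.G b m Z)
  affineSpace : ∀ N n m : ℕ, 1 ≤ n → 2 * n ≤ m →
    Subsingleton (codim chow.rational n m N (aff ℚ (MvPolynomial (Fin N) ℚ)))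
  fields : Motivic ℚ ℚ
  borel : ∀ (i : ℤ) (n : ℕ), i ≤ 0 → 1 ≤ n → Subsingleton (fields.H i n (Ext.base ℚ))
  restriction : Restriction chow.rational fields
  opens : HeightOpens chow.rational fields

namespace RationalMotives

variable (E : RationalMotives)

/-- The vanishing in negative degrees `H^k(Y, ℚ(j)) = CH^j(Y, 2 j - k) ⊗ ℚ = 0`, `k < 0`, in the weights
`j ≤ w` for all smooth projective complex varieties `Y`. -/
def Complex (w : ℕ) : Prop := ∀ Y : Sch ℂ, Cw.SmoothProjective Y → E.chow.complex.C.Neg w Y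

/-- `H^i(F, ℚ(n)) = 0` for `i < 0`, `n ≤ w` and all finitely generated fields `F` of characteristic
zero. -/
def Fields (w : ℕ) : Prop := ∀ n ≤ w, ∀ i < 0, ∀ d, FieldsVanish E.fields i n d

/-- For all `C` and `s` there is an `h = heightBound d s u`, `u ≥ 1`, with
`C · rank CH^n(V_h, m) < (2 u + 1) ^ ((u + 1) ^ d)`. If `d ≥ 1`, the right hand side is larger than
`exp (h ^ ε)` for an `ε > 0` which depends only on `d` and `s`. -/
def SlowHeight (n d m : ℕ) : Prop :=
  ∀ C s : ℕ, ∃ u N : ℕ, 1 ≤ u ∧ C * N < (2 * u + 1) ^ (u + 1) ^ d ∧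
    RankLE (codim E.chow.rational n m (d + 1) (heightOpen (d + 1) (heightBound d s u))) N

/-- `H^i(ℚ(t_1, …, t_d), ℚ(n)) = 0` for `(i, n) ∈ S` and all `d`. -/
def Zero (S : Set (ℤ × ℕ)) : Prop :=
  ∀ p ∈ S, ∀ d : ℕ, Subsingleton (E.fields.H p.1 p.2 (Ext.tower ℚ d))

/-- `H^i(ℚ(t_1, …, t_d), ℚ(n))` is finite-dimensional for `(i, n) ∈ S` and all `d`. -/
def FinDim (S : Set (ℤ × ℕ)) : Prop :=
  ∀ p ∈ S, ∀ d : ℕ, Module.Finite ℚ (E.fields.H p.1 p.2 (Ext.tower ℚ d))

/-- The automorphism `t_(d+1) ↦ t_(d+1) + 1` acts trivially on `H^i(ℚ(t_1, …, t_(d+1)), ℚ(n))` for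
`(i, n) ∈ S` and all `d`. -/
def Fixed (S : Set (ℤ × ℕ)) : Prop :=
  ∀ p ∈ S, ∀ d : ℕ, Fixes E.fields p.1 p.2 (Ext.tower ℚ d) 1

/-- For `(i, n) ∈ S`, all `d` and every `x` in `H^i(ℚ(t_1, …, t_(d+1)), ℚ(n))` infinitely many translates of
`x` by elements of `ℚ(t_1, …, t_d)` lie in a finite-dimensional space modulo
`H^i(ℚ(t_1, …, t_d), ℚ(n))`. -/
def Few (S : Set (ℤ × ℕ)) : Prop :=
  ∀ p ∈ S, ∀ d : ℕ, FewTranslates E.fields p.1 p.2 (Ext.tower ℚ d)

/-- `H^i(𝔸^(d+1) - V(f), ℚ(n)) = CH^n(𝔸^(d+1) - V(f), 2 n - i) ⊗ ℚ = 0` for `(i, n) ∈ S`, all `d` and all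
polynomials `f ≠ 0` with rational coefficients. -/
def Complements (S : Set (ℤ × ℕ)) : Prop :=
  ∀ p ∈ S, ∀ d m : ℕ, p.1 = 2 * (p.2 : ℤ) - m → ∀ f : MvPolynomial (Fin (d + 1)) ℚ, f ≠ 0 →
    Subsingleton (codim E.chow.rational p.2 m (d + 1) (complS f))

/-- The ranks of the groups `H^i(V_h, ℚ(n)) = CH^n(V_h, 2 n - i) ⊗ ℚ` grow slowly for `(i, n) ∈ S` and
all `d`; here `V_h` is an open subscheme of `𝔸^(d+1)`. -/
def Slow (S : Set (ℤ × ℕ)) : Prop :=
  ∀ p ∈ S, ∀ d m : ℕ, p.1 = 2 * (p.2 : ℤ) - m → E.SlowHeight p.2 d m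

/-- The degrees `i ≤ 0` and the weights `1 ≤ n ≤ w + 1`. -/
def nonpos (w : ℕ) : Set (ℤ × ℕ) := {p | p.1 ≤ 0 ∧ 1 ≤ p.2 ∧ p.2 ≤ w + 1}

/-- The degree `0` and the weights `n ≥ 1`. -/
def degreeZero : Set (ℤ × ℕ) := {p | p.1 = 0 ∧ 1 ≤ p.2}

end RationalMotives

end Pool.Agent.Run7.h406.PR
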