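import Pool.Agent.Run7.h406.PR.Main
import Pool.Agent.Run7.h406.PR.QDefs
import Pool.Agent.Run7.h902.CyQ

/-!
# Vanishing in negative degrees and the fields `ℚ(t_1, …, t_d)`
-/

set_option autoImplicit false

open CategoryTheory AlgebraicGeometry Pool.Agent.Y116.UV Pool.Agent.Run7.h902
open Pool.Agent.Run7.h384.RF (Ext Motivic)

namespace Pool.Agent.Run7.h406.PR

section general

variable {k : Type} [Field k]

/-- from schemes to fields -/
lemma vanish_of_neg {C : Cw.Chow k} {A : Motivic k ℚ} (T : Restriction C A) (w d : ℕ)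
    (h : ∀ X : Sch k, FT True X → topologicalKrullDim X.left ≤ d → C.NegAll w X)
    (n : ℕ) (hn : n ≤ w) (i : ℤ) (hi : i < 0) : A.Vanish i n d := by
  intro F hF hFd
  obtain ⟨m, rfl⟩ : ∃ m : ℕ, i = 2 * (n : ℤ) - m := ⟨(2 * n - i).toNat, by omega⟩
  refine subsingleton_of_forall_eq 0 fun y => ?_
  obtain ⟨e, M, x, hx⟩ := T.exhaust n m F y hF
  have hft := M.finiteType
  have hed : e ≤ d := by
    rw [M.trdeg] at hFd
    exact_mod_cast hFd
  have h1 : topologicalKrullDim M.scheme.left = e := (Cw.dim_aff k M.A).trans M.dim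
  have h2 : Subsingleton (codim C n m e M.scheme) :=
    h M.scheme (ft_aff True) (h1.le.trans (by exact_mod_cast hed)) e h1.le n m hn (by omega)
  rw [Subsingleton.elim x 0, map_zero] at hx
  exact hx.symm

/-- from fields to schemes -/
lemma neg_of_vanish [PerfectField k] {C : Cw.Chow k} {A : Motivic k ℚ} (T : Restriction C A)
    (w : ℕ) : ∀ d : ℕ, (∀ n ≤ w, ∀ i < 0, A.Vanish i n d) →
    ∀ X : Sch k, FT True X → topologicalKrullDim X.left ≤ d → C.NegAll w X := by
  have key : ∀ d : ℕ, (∀ n ≤ w, ∀ i < 0, A.Vanish i n d) →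
      (∀ d' < d, ∀ X : Sch k, FT True X → topologicalKrullDim X.left ≤ d' → C.NegAll w X) →
      ∀ X : Sch k, FT True X → topologicalKrullDim X.left ≤ d → C.NegAll w X := by
    intro d h ih
    refine Cw.neg_fixed C w d fun A' _ _ _ hd hN hN2 _ => ?_
    intro e he n m h1 h2
    rw [Cw.dim_aff] at he
    have hed : e ≤ d := by
      rw [he] at hN2
      exact_mod_cast hN2
    let M := fractionModel A' hN e he
    refine subsingleton_of_forall_eq 0 fun x => ?_
    have h3 : Subsingleton (A.H (2 * (n : ℤ) - m) n ⟨FractionRing A'⟩) :=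
      h n h1 _ (by omega) _ M.fg (by rw [M.trdeg]; exact_mod_cast hed)
    obtain ⟨Z, U, i, j, ht, hZ, hZd, f, z, hz⟩ := T.support n m e _ M x (h3.elim _ _)
    have hz' : f z = x := hz
    have h4 := Cw.neg_compl C hZ hZd
      (fun e' he' hZe => ih e' (by omega) Z hZ hZe) h1 (m := m) (by omega)
    have h5 : Subsingleton (codim C n m e Z) := h4
    have hz0 : f z = 0 := by rw [Subsingleton.elim z 0, map_zero]
    exact hz'.symm.trans hz0
  intro d
  induction d using Nat.strong_induction_on with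
  | _ d ih =>
    intro h
    refine key d h fun d' hd' => ih d' hd' fun n hn i hi F hF hFd => ?_
    exact h n hn i hi F hF (hFd.trans (by exact_mod_cast hd'.le))

/-- equivalent conditions in one degree and one weight -/
theorem field_tfae' [PerfectField k] (A : Motivic k ℚ) (i : ℤ) (n d : ℕ)
    [hinf : Infinite (Ext.tower k d)] (hq : Subsingleton (A.H (i + 1) (n + 1) (Ext.base k))) :
    List.TFAE [
      A.Vanish i n d,
      Subsingleton (A.H (i + 1) (n + 1) (Ext.tower k (d + 1))),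
      Module.Finite ℚ (A.H (i + 1) (n + 1) (Ext.tower k (d + 1))),
      A.Fixes (i + 1) (n + 1) (Ext.tower k d) 1,
      A.FewTranslates (i + 1) (n + 1) (Ext.tower k d)] := by
  tfae_have 1 → 2 := by
    intro h
    have h1 := A.rational_of_vanish i n d h
    exact h1.2.subsingleton
  tfae_have 2 → 3 := by
    intro h
    infer_instance
  tfae_have 2 → 4 := fun h x => h.elim _ _
  tfae_have 4 → 1 := fun h => vanish_of_fixes A i n d one_ne_zero h
  tfae_have 3 → 5 := by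
    intro h x
    exact ⟨Set.univ, ⊤, Set.infinite_univ, h.fg_top, fun a _ => Submodule.mem_sup_left trivial⟩
  tfae_have 5 → 1 := fun h => A.vanish_of_res i n d (A.res_eq_zero_of_few i n _ h)
  tfae_finish

end general

lemma exists_ints (u : ℕ) : ∃ T : Finset ℚ, (∀ a ∈ T, a ∈ ints u) ∧ T.card = 2 * u + 1 := by
  classical
  refine ⟨(Finset.Icc (-(u : ℤ)) u).image (fun c : ℤ => (c : ℚ)), ?_, ?_⟩
  · intro a ha
    obtain ⟨c, hc, rfl⟩ := Finset.mem_image.mp ha
    rw [Finset.mem_Icc] at hc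
    exact ⟨c, abs_le.mpr hc, rfl⟩
  · rw [Finset.card_image_of_injective _ Int.cast_injective, Int.card_Icc]
    omega

/-- the same data as a structure of `Run7/h902` -/
def ChowPair.toQC (P : ChowPair) : Cw.ChowQC where
  toChowC := P.complex
  E := P.rational
  model := by
    intro X hX e n m he x
    obtain ⟨Y, e₀, ⟨h1, h2, h3, h4⟩, h5⟩ := P.model X e n m x hX he
    exact ⟨Y, e₀, h1, h2, h3, h4, h5⟩
  inj := by
    intro Y h1 h2 h3 e n m he
    obtain ⟨X, ⟨h4, h5, h6⟩, h7⟩ := P.inj Y e n m ⟨h1, h2, h3, he⟩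
    exact ⟨X, h4, h5, h6, h7⟩

namespace RationalMotives

variable (E : RationalMotives)

lemma opens_at (n m d : ℕ) (j : ℤ) (hj : j = 2 * (n : ℤ) - m) :
    ∃ f : ∀ h : ℕ, codim E.chow.rational n m (d + 1) (heightOpen (d + 1) h) →+
        E.fields.H j n (Ext.tower ℚ (d + 1)),
      (∀ y, ∃ h : ℕ, y ∈ Set.range (f h)) ∧
      ∀ u h : ℕ, 1 ≤ u → ∀ a, IsPoly ℚ (ints u) u d a → ∀ y ∈ Set.range (f h),
        E.fields.map j n ((Ext.tower ℚ d).shiftRat a) y ∈ Set.range (f (heightBound d h u)) := by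
  subst hj
  refine ⟨fun r => E.opens.opens n m (d + 1) r, fun y => ?_, ?_⟩
  · obtain ⟨r, x, hx⟩ := E.opens.exhaust n m (d + 1) y
    exact ⟨r, x, hx⟩
  · rintro u r hu a ha _ ⟨x, rfl⟩
    obtain ⟨x', hx'⟩ := E.opens.shift n m d u r a hu ha x
    exact ⟨x', hx'⟩

/-- slow growth implies vanishing -/
theorem vanish_of_slow (n m d : ℕ) (i : ℤ) (hi : i + 1 = 2 * ((n + 1 : ℕ) : ℤ) - m)
    (h : E.SlowHeight (n + 1) d m) : E.fields.Vanish i n d := by
  refine E.fields.vanish_of_res i n d fun x => ?_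
  refine Pool.Agent.Run7.h384.RF.Theory.Residues.ext fun P => ?_
  by_contra hP
  obtain ⟨C, hC⟩ := card_le_rank E.fields i n (Ext.tower ℚ d) x P hP
  obtain ⟨f, hf1, hf2⟩ := E.opens_at (n + 1) m d (i + 1) hi
  obtain ⟨r, hr⟩ := hf1 x
  obtain ⟨u, N, hu, hlt, hrk⟩ := h C r
  obtain ⟨T₀, hT₀, hTc₀⟩ := exists_ints u
  obtain ⟨T, hT, hTc⟩ := exists_polys ℚ (ints u) T₀ hT₀ u d
  have h1 := hC T _ N (f (heightBound d r u)) hrk fun a ha => hf2 u r hu a (hT a ha) x hr
  rw [hTc, hTc₀] at h1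
  exact absurd hlt (not_lt.mpr h1)

lemma infinite_tower (d : ℕ) : Infinite (Ext.tower ℚ d) :=
  Infinite.of_injective _ (algebraMap ℚ (Ext.tower ℚ d)).injective

lemma allIntPoly_ne_zero (N h : ℕ) : allIntPoly N h ≠ 0 := by
  rw [allIntPoly]
  refine finprod_mem_induction (p := fun f => f ≠ 0) one_ne_zero
    (fun f g hf hg => mul_ne_zero hf hg) (fun f hf => ?_)
  intro h0
  exact hf.1 (MvPolynomial.map_injective _ Int.cast_injective (h0.trans (map_zero _).symm))

lemma slow_of_complements (S : Set (ℤ × ℕ)) (h : E.Complements S) : E.Slow S := by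
  intro p hp d m hm C s
  refine ⟨1, 0, le_rfl, ?_, fun x => ⟨fun _ => 1, ?_, ?_⟩⟩
  · rw [mul_zero]
    exact pow_pos (by norm_num) _
  · intro h0
    exact one_ne_zero (congrFun h0 0)
  · exact (h p hp d m hm _ (allIntPoly_ne_zero (d + 1) _)).elim _ _

/-- the conditions on the fields -/
theorem pair_tfae (S : Set (ℤ × ℕ)) (hS : ∀ p ∈ S, p.1 ≤ 0 ∧ 1 ≤ p.2) :
    List.TFAE [
      ∀ (i : ℤ) (n : ℕ), (i + 1, n + 1) ∈ S → ∀ d, E.fields.Vanish i n d,
      E.Zero S, E.FinDim S, E.Fixed S, E.Few S] := by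
  have key : ∀ (i : ℤ) (n : ℕ), (i + 1, n + 1) ∈ S → ∀ d : ℕ, _ := fun i n hp d =>
    have := infinite_tower d
    field_tfae' E.fields i n d (E.borel (i + 1) (n + 1) (hS _ hp).1 (hS _ hp).2)
  have split : ∀ p ∈ S, ∃ (i : ℤ) (n : ℕ), p = (i + 1, n + 1) := by
    rintro ⟨i, n⟩ hp
    have h1 := (hS _ hp).2
    exact ⟨i - 1, n - 1, Prod.ext (by simp) (Nat.sub_add_cancel h1).symm⟩
  tfae_have 1 → 2 := by
    rintro h p hp (_ | d)
    · have := E.borel p.1 p.2 (hS p hp).1 (hS p hp).2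
      exact this
    · obtain ⟨i, n, rfl⟩ := split p hp
      exact ((key i n hp d).out 0 1).mp (h i n hp d)
  tfae_have 2 → 3 := by
    intro h p hp d
    have := h p hp d
    infer_instance
  tfae_have 3 → 1 := fun h i n hp d => ((key i n hp d).out 0 2).mpr (h _ hp (d + 1))
  tfae_have 2 → 4 := by
    intro h p hp d
    obtain ⟨i, n, rfl⟩ := split p hp
    exact ((key i n hp d).out 1 3).mp (h _ hp (d + 1))
  tfae_have 4 → 1 := fun h i n hp d => ((key i n hp d).out 0 3).mpr (h _ hp d)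
  tfae_have 2 → 5 := by
    intro h p hp d
    obtain ⟨i, n, rfl⟩ := split p hp
    exact ((key i n hp d).out 1 4).mp (h _ hp (d + 1))
  tfae_have 5 → 1 := fun h i n hp d => ((key i n hp d).out 0 4).mpr (h _ hp d)
  tfae_finish

lemma vanish_of_slow_set (S : Set (ℤ × ℕ)) (hS : ∀ p ∈ S, p.1 ≤ 0 ∧ 1 ≤ p.2) (h : E.Slow S)
    (i : ℤ) (n : ℕ) (hp : (i + 1, n + 1) ∈ S) (d : ℕ) : E.fields.Vanish i n d := by
  have h0 : i + 1 ≤ 0 := (hS _ hp).1
  obtain ⟨m, hm⟩ : ∃ m : ℕ, i + 1 = 2 * ((n + 1 : ℕ) : ℤ) - m :=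
    ⟨(2 * ((n + 1 : ℕ) : ℤ) - (i + 1)).toNat, by omega⟩
  exact E.vanish_of_slow n m d i hm (h _ hp d m hm)

/-- complements of hypersurfaces -/
lemma complements_of_vanish (w : ℕ) (h : ∀ n ≤ w, ∀ i < 0, ∀ d, E.fields.Vanish i n d)
    (S : Set (ℤ × ℕ)) (hS : ∀ p ∈ S, p.1 ≤ 0 ∧ 1 ≤ p.2 ∧ p.2 ≤ w + 1) : E.Complements S := by
  intro p hp d m hm f hf
  obtain ⟨h1, h2, h3⟩ := hS p hp
  obtain ⟨i, n⟩ := p
  dsimp only at h1 h2 h3 hm ⊢
  obtain ⟨n, rfl⟩ : ∃ n', n = n' + 1 := ⟨n - 1, by omega⟩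
  obtain ⟨m, rfl⟩ : ∃ m', m = m' + 1 := ⟨m - 1, by omega⟩
  obtain ⟨f', g, hfg⟩ := E.boundary (((d + 1 : ℕ) : ℤ) - ((n + 1 : ℕ) : ℤ)) m _ _ _ _ _
    (ft_aff True) (triple_away (R := ℚ) f)
  refine Cw.sub_mid hfg (E.affineSpace (d + 1) (n + 1) (m + 1) h2 (by push_cast at hm; omega)) ?_
  have h4 := neg_of_vanish E.restriction w d (fun n hn i hi => h n hn i hi d)
    (aff ℚ (MvPolynomial (Fin (d + 1)) ℚ ⧸ Ideal.span {f})) (ft_aff True)
    (by rw [Cw.dim_aff]; exact dim_hypersurface hf) d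
    (by rw [Cw.dim_aff]; exact dim_hypersurface hf) n m (by omega) (by push_cast at hm; omega)
  have h5 : ((d + 1 : ℕ) : ℤ) - ((n + 1 : ℕ) : ℤ) = (d : ℤ) - n := by push_cast; ring
  rw [h5]
  exact h4

/-- complex varieties and fields of characteristic zero -/
theorem complex_iff (w : ℕ) : E.Complex w ↔ E.Fields w := by
  refine (Cw.neg_rat E.chow.toQC w).trans ?_
  constructor
  · intro h n hn i hi d
    exact vanish_of_neg E.restriction w d
      (Cw.neg_prime E.chow.rational Cw.intFrac_rat' w d h) n hn i hi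
  · intro h A _ _ _ hd hN _
    obtain ⟨s, hs, -⟩ := Pool.Agent.Helper834.EC.exists_ringKrullDim_eq_trdeg ℚ A
    refine Cw.neg_of_all E.chow.rational _ (neg_of_vanish E.restriction w s
      (fun n hn i hi => h n hn i hi s) _ (ft_aff True) ?_)
    rw [Cw.dim_aff, hs]

/-- **Theorem.** The vanishing in the weights `n ≤ w`. -/
theorem weight_tfae (w : ℕ) :
    List.TFAE [
      E.Complex w, E.Fields w,
      E.Zero (nonpos w), E.FinDim (nonpos w), E.Fixed (nonpos w), E.Few (nonpos w),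
      E.Complements (nonpos w), E.Slow (nonpos w)] := by
  have hS : ∀ p ∈ nonpos w, p.1 ≤ 0 ∧ 1 ≤ p.2 := fun p hp => ⟨hp.1, hp.2.1⟩
  have key := E.pair_tfae (nonpos w) hS
  have h0 : E.Fields w ↔
      ∀ (i : ℤ) (n : ℕ), (i + 1, n + 1) ∈ nonpos w → ∀ d, E.fields.Vanish i n d := by
    constructor
    · rintro h i n ⟨h1, h2, h3⟩ d
      dsimp only at h1 h3
      exact h n (by omega) i (by omega) d
    · intro h n hn i hi d
      exact h i n ⟨by dsimp only; omega, by dsimp only; omega, by dsimp only; omega⟩ d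
  tfae_have 1 ↔ 2 := E.complex_iff w
  tfae_have 2 ↔ 3 := h0.trans (key.out 0 1)
  tfae_have 2 ↔ 4 := h0.trans (key.out 0 2)
  tfae_have 2 ↔ 5 := h0.trans (key.out 0 3)
  tfae_have 2 ↔ 6 := h0.trans (key.out 0 4)
  tfae_have 2 → 7 := fun h => E.complements_of_vanish w h (nonpos w) fun p hp => hp
  tfae_have 7 → 8 := fun h => E.slow_of_complements (nonpos w) h
  tfae_have 8 → 2 := fun h => h0.mpr (E.vanish_of_slow_set (nonpos w) hS h)
  tfae_finish

/-- **Theorem.** The vanishing in all weights: the degree `0` is enough. -/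
theorem all_tfae :
    List.TFAE [
      ∀ w : ℕ, E.Complex w,
      E.Zero degreeZero, E.FinDim degreeZero, E.Fixed degreeZero, E.Few degreeZero,
      E.Complements degreeZero, E.Slow degreeZero] := by
  have hS : ∀ p ∈ degreeZero, p.1 ≤ 0 ∧ 1 ≤ p.2 := fun p hp => ⟨hp.1.le, hp.2⟩
  have key := E.pair_tfae degreeZero hS
  have h0 : (∀ w : ℕ, E.Complex w) ↔
      ∀ (i : ℤ) (n : ℕ), (i + 1, n + 1) ∈ degreeZero → ∀ d, E.fields.Vanish i n d := by
    constructor
    · rintro h i n ⟨h1, -⟩ d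
      dsimp only at h1
      exact (E.complex_iff n).mp (h n) n le_rfl i (by omega) d
    · intro h w
      refine (E.complex_iff w).mpr ?_
      intro n _ i hi d
      refine E.fields.vanish_of_minus_one (fun n d => h (-1) n ⟨?_, ?_⟩ d) i hi n d
      · norm_num
      · exact Nat.succ_pos n
  tfae_have 1 ↔ 2 := h0.trans (key.out 0 1)
  tfae_have 1 ↔ 3 := h0.trans (key.out 0 2)
  tfae_have 1 ↔ 4 := h0.trans (key.out 0 3)
  tfae_have 1 ↔ 5 := h0.trans (key.out 0 4)
  tfae_have 1 → 6 := by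
    intro h p hp
    refine E.complements_of_vanish p.2 ((E.complex_iff p.2).mp (h p.2)) {p} ?_ p rfl
    rintro _ rfl
    exact ⟨hp.1.le, hp.2, by omega⟩
  tfae_have 6 → 7 := fun h => E.slow_of_complements degreeZero h
  tfae_have 7 → 1 := fun h => h0.mpr (E.vanish_of_slow_set degreeZero hS h)
  tfae_finish

end RationalMotives

end Pool.Agent.Run7.h406.PR
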