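import Pool.Agent.Run7.h406.PR.Gap

/-!
# Motivic homology with compact support over a finite field and rational function fields
-/

set_option autoImplicit false

open CategoryTheory AlgebraicGeometry Pool.Agent.Y116.UV Pool.Agent.Run7.h902
open Pool.Agent.Run7.h384.RF (Ext Motivic)

namespace Pool.Agent.Run7.h406.PR

section

variable {k : Type} [Field k]

lemma tot_vanish (C : Cw.Chow k) (b : ℤ) : Cu.Tot True fun X => ∀ m : ℕ, Subsingleton (C.G b m X) where
  iso := by
    intro X Y hX e hP m
    obtain ⟨g⟩ := C.iso b m X Y hX e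
    have := hP m
    exact g.symm.toEquiv.subsingleton
  empty X hX m := C.empty b m X hX
  total := by
    intro Z X U i j hX ht hZ hU m
    obtain ⟨f, g, hfg⟩ := C.localization b m Z X U i j hX ht
    exact Cw.sub_mid hfg (hZ m) (hU m)

/-- the vanishing for schemes of smaller dimension -/
lemma small_vanish (B : BorelMoore k) (b : ℤ) {e n : ℕ} (hen : e ≤ n)
    (ih : ∀ e' < n, B.AllVanish b e') {Z : Sch k} (hZ : FT True Z)
    (hZd : topologicalKrullDim Z.left < e) (m : ℕ) : Subsingleton (B.C.G b m Z) := by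
  rcases e with _ | e
  · exact B.C.empty _ _ Z (Cw.empty_of_dim (by exact_mod_cast hZd))
  · refine ih e (by omega) Z hZ ?_ m
    rcases eq_or_ne (topologicalKrullDim Z.left) ⊥ with hb | hb
    · rw [hb]; exact bot_le
    obtain ⟨x, hx⟩ := WithBot.ne_bot_iff_exists.mp hb
    rw [← hx] at hZd ⊢
    have h3 : x < ((e + 1 : ℕ) : ℕ∞) := by exact_mod_cast hZd
    obtain ⟨y, hy⟩ := ENat.ne_top_iff_exists.mp (ne_top_of_lt h3)
    rw [← hy] at h3 ⊢
    have h4 : y < e + 1 := by exact_mod_cast h3
    exact_mod_cast Nat.lt_succ_iff.mp h4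

/-- from smooth projective varieties to all schemes -/
theorem all_of_parshin [PerfectField k] (B : BorelMoore k) (b : ℤ) (hb : b < 0) (d : ℕ)
    (h : B.Parshin b d) : ∀ n ≤ d, B.AllVanish b n := by
  intro n
  induction n using Nat.strong_induction_on with
  | _ n ih =>
    intro hnd X hX hXn
    refine Cx.fixed_dim (Cu.generic_field k) (tot_vanish B.C b) n
      (fun A _ _ _ hd hN hN2 _ => ?_) X hX hXn
    obtain ⟨e, he⟩ := Cw.exists_dim (k := k) A hN2
    rw [Cw.dim_aff] at he
    have hen : e ≤ n := by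
      rw [he] at hN2
      exact_mod_cast hN2
    have ih' : ∀ e' < n, B.AllVanish b e' := fun e' he' => ih e' he' (by omega)
    obtain ⟨Z, U, Z', U', Y, i, j, i', j', ht, ht', ⟨hZ, hZ', hU'⟩, hY, ⟨hd1, hd2, hd3⟩, hinj⟩ :=
      B.alteration A hd hN
    rw [he] at hd1 hd2 hd3
    have hU'v : ∀ m : ℕ, Subsingleton (B.C.G b m U') := by
      intro m
      rcases m with _ | m
      · exact B.negative b 0 U' hU' (by simpa using hb)
      · obtain ⟨f, g, hfg⟩ := B.boundary b m Z' Y U' i' j' hY.ft ht'
        refine Cw.sub_mid hfg (h Y hY ?_ (m + 1) (by omega)) (small_vanish B b hen ih' hZ' hd2 m)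
        rw [hd3]
        exact_mod_cast hen.trans hnd
    intro m
    obtain ⟨f, g, hfg⟩ := B.C.localization b m Z (aff k A) U i j (ft_aff True) ht
    refine Cw.sub_mid hfg (small_vanish B b hen ih' hZ hd1 m) ?_
    obtain ⟨g, hg⟩ := hinj b m
    have := hU'v m
    exact hg.subsingleton

lemma Model.isDomain {F : Ext k} {e : ℕ} (M : Model F e) : IsDomain M.A := by
  have := M.fraction
  exact (IsFractionRing.injective M.A F).isDomain (algebraMap M.A F)

lemma Model.trdeg {F : Ext k} {e : ℕ} (M : Model F e) : Algebra.trdeg k F = e := by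
  have := M.fraction
  have := M.finiteType
  have := M.tower
  have := M.isDomain
  obtain ⟨s, h1, h2⟩ := Pool.Agent.Helper834.EC.exists_ringKrullDim_eq_trdeg k M.A
  have h3 : s = e := by
    have := h1.symm.trans M.dim
    exact_mod_cast this
  subst h3
  have h4 := trdeg_add_eq k M.A (A := F)
  have h5 : Algebra.IsAlgebraic M.A F := IsLocalization.isAlgebraic _ (nonZeroDivisors M.A)
  rw [trdeg_eq_zero (R := M.A) (A := F), add_zero, h2] at h4
  exact h4.symm

lemma Model.fg {F : Ext k} {e : ℕ} (M : Model F e) : Algebra.EssFiniteType k F := by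
  have := M.fraction
  have := M.finiteType
  have := M.tower
  have h1 : Algebra.EssFiniteType M.A F :=
    Algebra.EssFiniteType.of_isLocalization F (nonZeroDivisors M.A)
  exact Algebra.EssFiniteType.comp k M.A F

/-- the field of fractions -/
noncomputable def fractionModel (A : Type) [CommRing A] [Algebra k A] [hf : Algebra.FiniteType k A]
    [IsDomain A] (h : Algebra.Smooth k A) (e : ℕ) (he : ringKrullDim A = e) :
    Model (⟨FractionRing A⟩ : Ext k) e where
  A := A
  algebraF := inferInstanceAs (Algebra A (FractionRing A))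
  finiteType := hf
  smooth := h
  tower := inferInstanceAs (IsScalarTower k A (FractionRing A))
  fraction := inferInstanceAs (IsFractionRing A (FractionRing A))
  dim := he

variable (E : Motives k)

/-- from schemes to fields -/
lemma vanish_of_all [PerfectField k] (β d : ℕ) (h : E.AllVanish (-(β : ℤ)) d) (i : ℤ) :
    E.fields.Vanish i (d + β) d := by
  refine E.fields.vanish_of_residue i (d + β) d fun P => ?_
  rcases lt_or_ge ((d + β : ℕ) : ℤ) i with hi | hi
  · exact E.high i (d + β) _ hi
  obtain ⟨m, rfl⟩ : ∃ m : ℕ, i = 2 * ((d + β : ℕ) : ℤ) - m :=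
    ⟨(2 * ((d + β : ℕ) : ℤ) - i).toNat, by omega⟩
  have hfg := Pool.Agent.Run7.h384.RF.fg_tower (k := k) d
  have hfg' := Pool.Agent.Run7.h384.RF.fg_residue (Ext.tower k d) P
  refine subsingleton_of_forall_eq 0 fun y => ?_
  obtain ⟨e, M, x, hx⟩ := E.restriction.exhaust (d + β) m _ y hfg'
  have hft := M.finiteType
  have hed : e = d := by
    have h1 := M.trdeg
    rw [Pool.Agent.Run7.h384.RF.trdeg_residue, Pool.Agent.Run7.h384.RF.trdeg_tower] at h1
    exact_mod_cast h1.symm
  subst hed
  have h1 : topologicalKrullDim M.scheme.left = e := (Cw.dim_aff k M.A).trans M.dim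
  have h2 := h M.scheme (ft_aff True) h1.le m
  have h3 : ((e : ℤ) - ((e + β : ℕ) : ℤ)) = -(β : ℤ) := by push_cast; ring
  have h4 : Subsingleton (codim E.C (e + β) m e M.scheme) := by
    change Subsingleton (E.C.G ((e : ℤ) - ((e + β : ℕ) : ℤ)) m M.scheme)
    rw [h3]; exact h2
  rw [Subsingleton.elim x 0, map_zero] at hx
  exact hx.symm

/-- from fields to schemes -/
lemma all_of_vanish [PerfectField k] (β : ℕ) (d : ℕ)
    (h : ∀ e ≤ d, ∀ i, E.fields.Vanish i (e + β) e) :
    ∀ n ≤ d, E.AllVanish (-(β : ℤ)) n := by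
  intro n
  induction n using Nat.strong_induction_on with
  | _ n ih =>
    intro hnd X hX hXn
    refine Cx.fixed_dim (Cu.generic_field k) (tot_vanish E.C (-(β : ℤ))) n
      (fun A _ _ _ hd hN hN2 _ => ?_) X hX hXn
    obtain ⟨e, he⟩ := Cw.exists_dim (k := k) A hN2
    rw [Cw.dim_aff] at he
    have hen : e ≤ n := by
      rw [he] at hN2
      exact_mod_cast hN2
    have ih' : ∀ e' < n, E.AllVanish (-(β : ℤ)) e' := fun e' he' => ih e' he' (by omega)
    let M := fractionModel A hN e he
    have h3 : ((e : ℤ) - ((e + β : ℕ) : ℤ)) = -(β : ℤ) := by push_cast; ring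
    intro m
    have key : Subsingleton (codim E.C (e + β) m e M.scheme) := by
      refine subsingleton_of_forall_eq 0 fun x => ?_
      have h4 : Subsingleton (E.fields.H (2 * ((e + β : ℕ) : ℤ) - m) (e + β) ⟨FractionRing A⟩) :=
        h e (hen.trans hnd) _ _ M.fg M.trdeg.le
      obtain ⟨Z, U, i, j, ht, hZ, hZd, f, z, hz⟩ :=
        E.restriction.support (e + β) m e _ M x (h4.elim _ _)
      have hz' : f z = x := hz
      have h5 : Subsingleton (codim E.C (e + β) m e Z) := by
        change Subsingleton (E.C.G ((e : ℤ) - ((e + β : ℕ) : ℤ)) m Z)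
        rw [h3]
        exact small_vanish E.toBorelMoore (-(β : ℤ)) hen ih' hZ hZd m
      have hz0 : f z = 0 := by rw [Subsingleton.elim z 0, map_zero]
      exact hz'.symm.trans hz0
    change Subsingleton (E.C.G ((e : ℤ) - ((e + β : ℕ) : ℤ)) m M.scheme) at key
    rw [h3] at key
    exact key

end

end Pool.Agent.Run7.h406.PR
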